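import Pool.Agent.H.MP_0cad2f_co.qp.Defs

/-!
The diameter of Gaussian-perturbed polytopes, with a logarithmic dependence on the number of
constraints: definitions.

Only the constraints of a small set `G` carry weights of order one; the weights of all other
constraints are scaled down by a factor `ε`.
-/

set_option autoImplicit false

namespace Pool.Agent.H.MP_0cad2f_co.qq

open MeasureTheory Matrix Finset
open Pool.Agent.H.MP_0cad2f_co.helper47 (Vert graph gau noise n2 Idx mat nu vtx Good Simple)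
open Pool.Agent.H.MP_0cad2f_co.qp (sl obj mul idx IsMin seg wt)

variable {n d : ℕ}

/-- The scales of the weights. -/
noncomputable def sc (G : Finset (Fin n)) (ε : ℝ) (i : Fin n) : ℝ := by
  classical exact if i ∈ G then 1 else ε

/-- Scales of the weights: between `ε` and one, equal to one on `G`. -/
structure Scale (c : Fin n → ℝ) (G : Finset (Fin n)) (ε : ℝ) : Prop where
  pos : 0 < ε
  lo : ∀ i, ε ≤ c i
  hi : ∀ i, c i ≤ 1
  one : ∀ i ∈ G, c i = 1
  sum_le : ∑ i, c i ≤ G.card + 1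

/-- The scaled sum of all slacks. -/
def ct (a : Fin n → Fin d → ℝ) (c : Fin n → ℝ) (x : Fin d → ℝ) : ℝ := ∑ i, c i * sl a x i

/-- The regularity of the constraints: bounded norms, all `d` constraints are independent, all
slacks and dual vectors are bounded, every vertex has at most `k` nearly tight constraints, and
the constraints of `G` span robustly. -/
structure Reg (a : Fin n → Fin d → ℝ) (R e τ T : ℝ) (k : ℕ) (G : Finset (Fin n)) : Prop where
  norm_le : ∀ i, n2 (a i) ≤ R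
  det_ne : ∀ B : Idx n d, (mat a B).det ≠ 0
  nu_le : ∀ (B : Idx n d) (k : Fin d), n2 (nu a B k) ≤ 1 / e
  sl_ge : ∀ (B : Idx n d) (i : Fin n), i ∉ Set.range B → e ≤ |sl a (vtx a B) i|
  near_le : ∀ B : Idx n d, Good a B →
    Set.ncard {i | i ∉ Set.range B ∧ sl a (vtx a B) i ≤ τ * n2 (vtx a B)} ≤ k
  span : ∀ (x : Fin d → ℝ) (l : Fin n), |a l ⬝ᵥ x| ≤ T * ∑ i ∈ G, |a i ⬝ᵥ x|

/-- Two consecutive objectives. -/
structure Stage (c θ θ' : Fin n → ℝ) (lam : ℝ) : Prop where
  nonneg : ∀ i, 0 ≤ θ i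
  lo : ∀ i, lam / 2 * c i ≤ θ' i - θ i
  hi : ∀ i, θ' i - θ i ≤ 9 * lam * c i

/-- A good segment of objectives: at all dyadic times near optimal vertices are isolated with
respect to the constraints of `G`, at the finest times the objective is nondegenerate and at most
one multiplier is small. -/
structure GoodSeg (a : Fin n → Fin d → ℝ) (G : Finset (Fin n)) (c : Fin n → ℝ) (μ ν η lam : ℝ)
    (J : ℕ) (θ θ' : Fin n → ℝ) : Prop where
  iso : ∀ m ≤ J, ∀ k : ℕ, k ≤ 2 ^ m → ∀ v x : Idx n d, IsMin a (seg θ θ' ((k : ℝ) / 2 ^ m)) v →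
    Good a x → obj a (seg θ θ' ((k : ℝ) / 2 ^ m)) (vtx a x) ≤
      obj a (seg θ θ' ((k : ℝ) / 2 ^ m)) (vtx a v) + 9 * ν / 2 ^ m * lam * ct a c (vtx a v) →
    ∀ l ∈ G, |sl a (vtx a x) l - sl a (vtx a v) l| ≤ μ * ct a c (vtx a v)
  two : ∀ k : ℕ, k ≤ 2 ^ J → ∀ (B : Idx n d) (i j : Fin d), i ≠ j →
    η < |mul a B (seg θ θ' ((k : ℝ) / 2 ^ J)) i| ∨ η < |mul a B (seg θ θ' ((k : ℝ) / 2 ^ J)) j|
  nd : ∀ k : ℕ, k ≤ 2 ^ J → ∀ (B : Idx n d) (i : Fin d), mul a B (seg θ θ' ((k : ℝ) / 2 ^ J)) i ≠ 0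

/-- The objective near the vertex `B`. -/
noncomputable def th (c : Fin n → ℝ) (B : Idx n d) (lam : ℝ) (w : Fin n → ℝ) (i : Fin n) : ℝ :=
  Set.indicator (Set.range B) 1 i + lam * (c i * w i)

/-- The bound for one hop. -/
def HR (d r : ℕ) : ℕ := 2 ^ r * (d + r).choose r

end Pool.Agent.H.MP_0cad2f_co.qq
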