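import Pool.Agent.H.MP_0cad2f_co.qq.Near
import Pool.Agent.H.MP_0cad2f_co.qp.Prob
import Pool.Agent.H.MP_0cad2f_co.helper94.Block

/-!
The constraints are regular with high probability.
-/

set_option autoImplicit false

namespace Pool.Agent.H.MP_0cad2f_co.qq

open MeasureTheory ProbabilityTheory Matrix Finset
open scoped NNReal ENNReal
open Pool.Agent.H.MP_0cad2f_co.helper47 (Vert graph gau noise n2 Idx mat nu vtx Good Simple)
open Pool.Agent.H.MP_0cad2f_co.qp (sl obj mul idx IsMin seg wt)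

variable {n d : ℕ}

/-- The set of constraints with weights of order one. -/
def GG (n d k : ℕ) : Finset (Fin n) := Finset.univ.filter fun i : Fin n => (i : ℕ) < k * d

theorem card_GG (n d k : ℕ) : (GG n d k).card ≤ k * d := by
  have h : (GG n d k).map Fin.valEmbedding ⊆ Finset.range (k * d) := by
    intro x hx
    obtain ⟨i, hi, rfl⟩ := Finset.mem_map.1 hx
    exact Finset.mem_range.2 (Finset.mem_filter.1 hi).2
  have h2 := Finset.card_le_card h
  rwa [Finset.card_map, Finset.card_range] at h2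

private theorem pr_card_Idx : Fintype.card (Idx n d) ≤ n ^ d := by
  have h : Function.Injective (fun B : Idx n d => (B : Fin d → Fin n)) := DFunLike.coe_injective
  have h2 := Fintype.card_le_of_injective _ h
  rwa [Fintype.card_fun, Fintype.card_fin, Fintype.card_fin] at h2

/-- A union bound over a finite type. -/
private theorem pr_union {Ω ι : Type*} [MeasurableSpace Ω] [Fintype ι] (P : Measure Ω)
    (S : ι → Set Ω) {N : ℕ} {b : ℝ} (hb : 0 ≤ b) (hN : Fintype.card ι ≤ N)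
    (h : ∀ i, P (S i) ≤ ENNReal.ofReal b) : P (⋃ i, S i) ≤ ENNReal.ofReal (N * b) := by
  refine (measure_iUnion_fintype_le P S).trans ?_
  refine (Finset.sum_le_sum fun i _ => h i).trans ?_
  rw [Finset.sum_const, Finset.card_univ, nsmul_eq_mul, ← ENNReal.ofReal_natCast,
    ← ENNReal.ofReal_mul (by positivity)]
  refine ENNReal.ofReal_le_ofReal (mul_le_mul_of_nonneg_right ?_ hb)
  exact_mod_cast hN

theorem prob_reg (c : Fin n → Fin d → ℝ) {σ : ℝ} (hσ : 0 < σ) (hn : 2 ≤ n) (hd : 1 ≤ d)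
    (hdn : d < n) (hσ1 : σ ≤ 1 / (6 * Real.sqrt (d * Real.log n))) (hc : ∀ i, n2 (c i) ≤ 1)
    {k : ℕ} (hk : k = 2 * d * (Nat.log 2 n + 1) + 3) :
    noise c σ {a | ¬ Reg a 2 (σ / (24 * (n : ℝ) ^ (3 * d + 2))) (σ ^ 2 / 12) (400 * d / σ ^ 2) k
      (GG n d k)} ≤ ENNReal.ofReal (1 / (n : ℝ) ^ d) := by
  obtain ⟨e, he⟩ : ∃ e, e = σ / (24 * (n : ℝ) ^ (3 * d + 2)) := ⟨_, rfl⟩
  rw [← he]
  have hn2 : (2 : ℝ) ≤ n := by exact_mod_cast hn
  have hn0 : (0 : ℝ) < n := by linarith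
  have hd1 : (1 : ℝ) ≤ d := by exact_mod_cast hd
  have he0 : 0 < e := by rw [he]; positivity
  have hσ2 : 0 < σ ^ 2 := by positivity
  -- smallness of `σ`
  have hσd : σ ≤ 1 / (6 * Real.sqrt (d * Real.log 2)) := by
    refine hσ1.trans ?_
    have h1 : Real.log 2 ≤ Real.log n := Real.log_le_log (by norm_num) hn2
    have h2 : 0 < Real.log 2 := Real.log_pos (by norm_num)
    have h3 : Real.sqrt (d * Real.log 2) ≤ Real.sqrt (d * Real.log n) :=
      Real.sqrt_le_sqrt (mul_le_mul_of_nonneg_left h1 (by linarith))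
    have h4 : 0 < Real.sqrt (d * Real.log 2) := Real.sqrt_pos.2 (by positivity)
    exact one_div_le_one_div_of_le (by positivity) (by linarith)
  have hσ1' : σ ≤ 1 := by
    have hl : (0.6931471803 : ℝ) < Real.log 2 := Real.log_two_gt_d9
    have h1 : (1 / 6 : ℝ) ≤ Real.sqrt (d * Real.log 2) := by
      apply Real.le_sqrt_of_sq_le
      nlinarith
    refine hσd.trans ?_
    rw [div_le_one (by linarith)]
    linarith
  have hT1 : 1 ≤ 400 * d / σ ^ 2 := by
    rw [le_div_iff₀ hσ2]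
    nlinarith
  -- the exceptional sets
  let A1 : Set (Fin n → Fin d → ℝ) := {a | ∃ i, 2 < n2 (a i)}
  let A2 : Set (Fin n → Fin d → ℝ) := {a | ¬ ∀ B : Idx n d, (mat a B).det ≠ 0}
  let A3 : Idx n d × Fin d → Set (Fin n → Fin d → ℝ) := fun p =>
    {a | (mat a p.1).det ≠ 0 ∧ 1 / e < n2 (nu a p.1 p.2)}
  let A4 : Idx n d × Fin n → Set (Fin n → Fin d → ℝ) := fun p =>
    {a | p.2 ∉ Set.range p.1 ∧ (∀ i, n2 (a i) ≤ 2) ∧ (mat a p.1).det ≠ 0 ∧
      |sl a (vtx a p.1) p.2| < e}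
  let A5 : Idx n d → Set (Fin n → Fin d → ℝ) := fun B =>
    {a | (∀ i, n2 (a i) ≤ 2) ∧ Good a B ∧
        k < Set.ncard {i | i ∉ Set.range B ∧
          sl a (vtx a B) i ≤ σ ^ 2 / 12 * n2 (vtx a B)}}
  let A6 : Set (Fin n → Fin d → ℝ) :=
    {a | k * d ≤ n ∧ ¬ helper47.Spans a (GG n d k) (200 * d / σ ^ 2)}
  have hsub : {a | ¬ Reg a 2 e (σ ^ 2 / 12) (400 * d / σ ^ 2) k (GG n d k)} ⊆
      A1 ∪ (A2 ∪ ((⋃ p, A3 p) ∪ ((⋃ p, A4 p) ∪ ((⋃ B, A5 B) ∪ A6)))) := by
    intro a ha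
    by_contra hcon
    simp only [Set.mem_union, Set.mem_iUnion, not_or, not_exists] at hcon
    obtain ⟨h1, h2, h3, h4, h5, h6⟩ := hcon
    have g1 : ∀ i, n2 (a i) ≤ 2 := fun i => not_lt.1 fun h => h1 ⟨i, h⟩
    have g2 : ∀ B : Idx n d, (mat a B).det ≠ 0 := not_not.1 h2
    refine ha ⟨g1, g2, fun B k => ?_, fun B i hi => ?_, fun B hB => ?_, fun x l => ?_⟩
    · exact not_lt.1 fun h => h3 (B, k) ⟨g2 B, h⟩
    · exact not_lt.1 fun h => h4 (B, i) ⟨hi, g1, g2 B, h⟩
    · exact not_lt.1 fun h => h5 B ⟨g1, hB, h⟩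
    · by_cases hkn : k * d ≤ n
      · have g6 : helper47.Spans a (GG n d k) (200 * d / σ ^ 2) :=
          not_not.1 fun h => h6 ⟨hkn, h⟩
        have g7 := g6 x
        have g8 := helper47.abs_dot_le (a l) x
        have g9 : n2 (a l) * n2 x ≤ 2 * n2 x :=
          mul_le_mul_of_nonneg_right (g1 l) (helper47.n2_nonneg x)
        have g10 : 400 * d / σ ^ 2 * ∑ i ∈ GG n d k, |a i ⬝ᵥ x| =
            2 * (200 * d / σ ^ 2 * ∑ i ∈ GG n d k, |a i ⬝ᵥ x|) := by ring
        rw [g10]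
        linarith
      · have g6 : l ∈ GG n d k :=
          Finset.mem_filter.2 ⟨Finset.mem_univ _, l.2.trans (not_le.1 hkn)⟩
        have g7 : |a l ⬝ᵥ x| ≤ ∑ i ∈ GG n d k, |a i ⬝ᵥ x| :=
          Finset.single_le_sum (f := fun i => |a i ⬝ᵥ x|) (fun i _ => abs_nonneg _) g6
        have g8 : 0 ≤ ∑ i ∈ GG n d k, |a i ⬝ᵥ x| := Finset.sum_nonneg fun i _ => abs_nonneg _
        exact g7.trans (le_mul_of_one_le_left g8 hT1)
  have b1 : noise c σ A1 ≤ ENNReal.ofReal (1 / (8 * (n : ℝ) ^ (2 * d))) :=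
    qp.prob_norm c hσ hn hd hσ1 hc
  have b2 : noise c σ A2 = 0 := by
    have hae : ∀ᵐ a ∂(noise c σ), ∀ B : Idx n d, (mat a B).det ≠ 0 := by
      rw [ae_all_iff]
      exact fun B => helper94.ae_det_ne_zero c hσ B
    exact ae_iff.1 hae
  have b3 : noise c σ (⋃ p, A3 p) ≤ ENNReal.ofReal ((n ^ d * d : ℕ) * (e / σ)) := by
    refine pr_union _ _ (by positivity) ?_ fun p => qp.prob_nu c hσ he0 p.1 p.2
    rw [Fintype.card_prod, Fintype.card_fin]
    exact Nat.mul_le_mul_right _ pr_card_Idx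
  have b4 : noise c σ (⋃ p, A4 p) ≤ ENNReal.ofReal ((n ^ d * n : ℕ) * (2 * e / σ)) := by
    refine pr_union _ _ (by positivity) ?_ fun p => ?_
    · rw [Fintype.card_prod, Fintype.card_fin]
      exact Nat.mul_le_mul_right _ pr_card_Idx
    · by_cases hp : p.2 ∈ Set.range p.1
      · have : A4 p = ∅ := by
          ext a
          simp only [A4, Set.mem_ofPred_eq, Set.mem_empty_iff_false, iff_false]
          exact fun h => h.1 hp
        rw [this, measure_empty]
        exact bot_le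
      · exact (measure_mono fun a ha => ha.2).trans (qp.prob_sl c hσ he0 hd p.1 hp)
  have b5 : noise c σ (⋃ B, A5 B) ≤ ENNReal.ofReal
      ((n ^ d : ℕ) * ((1 / 2) ^ (k + 1) + n * (1 / (n : ℝ) ^ (20 * d)))) :=
    pr_union _ _ (by positivity) pr_card_Idx fun B => prob_near c hσ hn hd hσ1 B k
  have b6 : noise c σ A6 ≤ ENNReal.ofReal ((1 / 2) ^ k) := by
    by_cases hkn : k * d ≤ n
    · refine (measure_mono fun a ha => ha.2).trans ?_
      refine helper94.spans_fail c hσ hd hσd hc (le_of_eq ?_) hkn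
      field_simp
    · have : A6 = ∅ := by
        ext a
        simp only [A6, Set.mem_ofPred_eq, Set.mem_empty_iff_false, iff_false]
        exact fun h => hkn h.1
      rw [this, measure_empty]
      exact bot_le
  refine (measure_mono hsub).trans ?_
  refine (measure_union_le _ _).trans ?_
  refine (add_le_add b1 ((measure_union_le _ _).trans (add_le_add b2.le ((measure_union_le _ _).trans
    (add_le_add b3 ((measure_union_le _ _).trans (add_le_add b4 ((measure_union_le _ _).trans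
      (add_le_add b5 b6))))))))).trans ?_
  rw [zero_add, ← ENNReal.ofReal_add (by positivity) (by positivity),
    ← ENNReal.ofReal_add (by positivity) (by positivity),
    ← ENNReal.ofReal_add (by positivity) (by positivity),
    ← ENNReal.ofReal_add (by positivity) (by positivity)]
  refine ENNReal.ofReal_le_ofReal ?_
  obtain ⟨q, hq⟩ : ∃ q : ℝ, q = (n : ℝ) ^ d := ⟨_, rfl⟩
  have hnq : (n : ℝ) ≤ q := by
    rw [hq]
    calc (n : ℝ) = (n : ℝ) ^ 1 := (pow_one _).symm
      _ ≤ (n : ℝ) ^ d := pow_le_pow_right₀ (by linarith) hd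
  have hq2 : 2 ≤ q := hn2.trans hnq
  have hq1 : 1 ≤ q := by linarith
  have hdn' : (d : ℝ) ≤ n := by exact_mod_cast hdn.le
  have hnn : (n : ℝ) ^ (2 * d) = q * q := by rw [hq, ← pow_add]; congr 1; ring
  have hiq : 0 ≤ 1 / q := by positivity
  have hqq : 1 / (q * q) ≤ 1 / 2 * (1 / q) := by
    rw [← one_div_mul_one_div]
    refine mul_le_mul_of_nonneg_right ?_ hiq
    rw [one_div_le_one_div (by linarith) (by norm_num)]
    exact hq2
  -- the bounds
  have c1 : 1 / (8 * (n : ℝ) ^ (2 * d)) ≤ 1 / 16 * (1 / q) := by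
    rw [hnn, ← one_div_mul_one_div]
    linarith
  have hes : e / σ = 1 / (24 * (q * q * q * n ^ 2)) := by
    have h1 : (n : ℝ) ^ (3 * d + 2) = q * q * q * n ^ 2 := by
      rw [hq, pow_add]
      congr 1
      rw [← pow_add, ← pow_add]
      congr 1
      ring
    rw [he, h1]
    field_simp
  have c3 : ((n ^ d * d : ℕ) : ℝ) * (e / σ) ≤ 1 / 24 * (1 / q) := by
    push_cast
    rw [hes, ← hq]
    rw [mul_one_div, div_le_iff₀ (by positivity)]
    have h1 : 1 / 24 * (1 / q) * (24 * (q * q * q * (n : ℝ) ^ 2)) = q * (q * n ^ 2) := by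
      field_simp
    rw [h1]
    refine mul_le_mul_of_nonneg_left ?_ (by linarith)
    nlinarith
  have c4 : ((n ^ d * n : ℕ) : ℝ) * (2 * e / σ) ≤ 1 / 12 * (1 / q) := by
    push_cast
    rw [mul_div_assoc, hes, ← hq]
    have h1 : q * (n : ℝ) * (2 * (1 / (24 * (q * q * q * (n : ℝ) ^ 2)))) =
        1 / 12 * (1 / q) * (1 / (q * n)) := by
      field_simp
      ring
    rw [h1]
    refine mul_le_of_le_one_right (by positivity) ?_
    rw [div_le_one (by positivity)]
    nlinarith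
  have c6 : ((1 : ℝ) / 2) ^ k ≤ 1 / 16 * (1 / q) := by
    have h1 : n ≤ 2 ^ (Nat.log 2 n + 1) := (Nat.lt_pow_succ_log_self (by norm_num) n).le
    have h2 : (n : ℝ) ≤ 2 ^ (Nat.log 2 n + 1) := by exact_mod_cast h1
    have h3 : (n : ℝ) ^ (2 * d) ≤ (2 ^ (Nat.log 2 n + 1)) ^ (2 * d) :=
      pow_le_pow_left₀ hn0.le h2 _
    have h4 : (2 : ℝ) ^ k = 8 * (2 ^ (Nat.log 2 n + 1)) ^ (2 * d) := by
      rw [hk, pow_add, ← pow_mul, mul_comm (8 : ℝ)]
      congr 1
      · congr 1
        ring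
      · norm_num
    rw [_root_.one_div_pow, h4]
    rw [hnn] at h3
    have h5 : (0 : ℝ) < 8 * (q * q) := by positivity
    calc 1 / (8 * (2 ^ (Nat.log 2 n + 1)) ^ (2 * d)) ≤ 1 / (8 * (q * q)) :=
          one_div_le_one_div_of_le h5 (by linarith)
      _ = 1 / 8 * (1 / (q * q)) := (one_div_mul_one_div _ _).symm
      _ ≤ 1 / 16 * (1 / q) := by linarith
  have c5 : ((n ^ d : ℕ) : ℝ) * ((1 / 2) ^ (k + 1) + n * (1 / (n : ℝ) ^ (20 * d))) ≤
      1 / 4 * (1 / q) := by
    push_cast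
    rw [← hq, mul_add]
    -- the first summand
    have h1 : q * (1 / 2 : ℝ) ^ (k + 1) ≤ 1 / 16 * (1 / q) := by
      have h1 : n ≤ 2 ^ (Nat.log 2 n + 1) := (Nat.lt_pow_succ_log_self (by norm_num) n).le
      have h2 : (n : ℝ) ≤ 2 ^ (Nat.log 2 n + 1) := by exact_mod_cast h1
      have h3 : (n : ℝ) ^ (2 * d) ≤ (2 ^ (Nat.log 2 n + 1)) ^ (2 * d) :=
        pow_le_pow_left₀ hn0.le h2 _
      have h4 : (2 : ℝ) ^ (k + 1) = 16 * (2 ^ (Nat.log 2 n + 1)) ^ (2 * d) := by
        rw [hk, pow_succ, pow_add, ← pow_mul, mul_comm (16 : ℝ), mul_assoc]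
        congr 1
        · congr 1
          ring
        · norm_num
      rw [hnn] at h3
      have h5 : (0 : ℝ) < 16 * (q * q) := by positivity
      rw [_root_.one_div_pow, h4]
      calc q * (1 / (16 * (2 ^ (Nat.log 2 n + 1)) ^ (2 * d))) ≤ q * (1 / (16 * (q * q))) :=
            mul_le_mul_of_nonneg_left (one_div_le_one_div_of_le h5 (by linarith)) (by linarith)
        _ = 1 / 16 * (1 / q) := by field_simp
    -- the second summand
    have h2 : q * ((n : ℝ) * (1 / (n : ℝ) ^ (20 * d))) ≤ 1 / 8 * (1 / q) := by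
      have h3 : (n : ℝ) ^ (20 * d) = q ^ 20 := by
        rw [hq, ← pow_mul]
        congr 1
        ring
      rw [h3]
      have h4 : q * ((n : ℝ) * (1 / q ^ 20)) ≤ q * (q * (1 / q ^ 20)) :=
        mul_le_mul_of_nonneg_left (mul_le_mul_of_nonneg_right hnq (by positivity)) (by linarith)
      refine h4.trans ?_
      have h5 : q * (q * (1 / q ^ 20)) = 1 / q ^ 17 * (1 / q) := by
        field_simp
      rw [h5]
      refine mul_le_mul_of_nonneg_right ?_ hiq
      refine one_div_le_one_div_of_le (by norm_num) ?_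
      calc (8 : ℝ) = 2 ^ 3 := by norm_num
        _ ≤ q ^ 3 := pow_le_pow_left₀ (by norm_num) hq2 3
        _ ≤ q ^ 17 := pow_le_pow_right₀ hq1 (by norm_num)
    linarith
  refine (add_le_add c1 (add_le_add c3 (add_le_add c4 (add_le_add c5 c6)))).trans ?_
  rw [← hq]
  linarith

end Pool.Agent.H.MP_0cad2f_co.qq
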