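import Pool.Agent.H.MP_0cad2f_co.qq.Defs

/-!
Regular constraints are simple, and the scaled sum of all slacks at a vertex is bounded from both
sides.
-/

set_option autoImplicit false

namespace Pool.Agent.H.MP_0cad2f_co.qq

open MeasureTheory ProbabilityTheory Matrix Finset
open scoped NNReal ENNReal
open Pool.Agent.H.MP_0cad2f_co.helper47 (Vert graph gau noise n2 Idx mat nu vtx Good Simple)
open Pool.Agent.H.MP_0cad2f_co.helper29 (toVert)
open Pool.Agent.H.MP_0cad2f_co.qp (sl obj mul idx IsMin seg wt)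

variable {n d : ℕ}

theorem scale_sc (G : Finset (Fin n)) (hn : 2 ≤ n) : Scale (sc G (1 / (n : ℝ) ^ 2)) G
    (1 / (n : ℝ) ^ 2) := by
  classical
  have hn1 : (1 : ℝ) ≤ n := by exact_mod_cast (by omega : 1 ≤ n)
  have hn0 : (0 : ℝ) < n := by linarith
  have hε : (0 : ℝ) < 1 / (n : ℝ) ^ 2 := by positivity
  have hε1 : 1 / (n : ℝ) ^ 2 ≤ 1 := by
    rw [div_le_one (by positivity)]
    exact one_le_pow₀ hn1
  have hsc : ∀ i, sc G (1 / (n : ℝ) ^ 2) i = if i ∈ G then 1 else 1 / (n : ℝ) ^ 2 := by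
    intro i
    rw [sc]
  refine ⟨hε, fun i => ?_, fun i => ?_, fun i hi => ?_, ?_⟩
  · rw [hsc]
    split_ifs
    · exact hε1
    · exact le_rfl
  · rw [hsc]
    split_ifs
    · exact le_rfl
    · exact hε1
  · rw [hsc, if_pos hi]
  · have h1 : ∀ i ∈ (Finset.univ : Finset (Fin n)), sc G (1 / (n : ℝ) ^ 2) i ≤
        (if i ∈ G then 1 else 0) + 1 / (n : ℝ) ^ 2 := by
      intro i _
      rw [hsc]
      split_ifs
      · linarith
      · linarith
    refine (Finset.sum_le_sum h1).trans ?_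
    rw [Finset.sum_add_distrib, Finset.sum_boole, Finset.sum_const, Finset.card_univ,
      Fintype.card_fin, nsmul_eq_mul, Finset.filter_mem_eq_inter, Finset.univ_inter]
    have h2 : (n : ℝ) * (1 / (n : ℝ) ^ 2) ≤ 1 := by
      rw [mul_one_div, div_le_one (by positivity), sq]
      nlinarith
    linarith

theorem Reg.simple {a : Fin n → Fin d → ℝ} {R e τ T : ℝ} {k : ℕ} {G : Finset (Fin n)}
    (hR : Reg a R e τ T k G) (he : 0 < e) : Simple a := by
  intro B _ i hi heq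
  have h := hR.sl_ge B i hi
  rw [sl, heq, sub_self, abs_zero] at h
  linarith

theorem ct_ge {a : Fin n → Fin d → ℝ} {R e τ T : ℝ} {k : ℕ} {G : Finset (Fin n)}
    (hR : Reg a R e τ T k G) (he : 0 < e) (hn : d < n) {c : Fin n → ℝ} {ε : ℝ}
    (hc : Scale c G ε) {B : Idx n d} (hB : Good a B) : ε * e ≤ ct a c (vtx a B) := by
  classical
  have hsl : ∀ i, 0 ≤ sl a (vtx a B) i := fun i => by
    have := hB.2 i
    rw [sl]
    linarith
  have hc0 : ∀ i, 0 ≤ c i := fun i => hc.pos.le.trans (hc.lo i)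
  obtain ⟨i, hi⟩ : ∃ i, i ∉ Set.range B := by
    by_contra hcon
    push Not at hcon
    have h1 : Function.Surjective B := fun i => hcon i
    have h2 := Fintype.card_le_of_surjective _ h1
    rw [Fintype.card_fin, Fintype.card_fin] at h2
    omega
  have h3 := hR.sl_ge B i hi
  rw [abs_of_nonneg (hsl i)] at h3
  have h4 : ε * e ≤ c i * sl a (vtx a B) i := mul_le_mul (hc.lo i) h3 he.le (hc0 i)
  exact h4.trans (Finset.single_le_sum (f := fun i => c i * sl a (vtx a B) i)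
    (fun i _ => mul_nonneg (hc0 i) (hsl i)) (Finset.mem_univ i))

theorem ct_le {a : Fin n → Fin d → ℝ} {R e τ T : ℝ} {k : ℕ} {G : Finset (Fin n)}
    (hR : Reg a R e τ T k G) (he : 0 < e) (hR0 : 0 ≤ R) {c : Fin n → ℝ} {ε : ℝ}
    (hc : Scale c G ε) (B : Idx n d) : ct a c (vtx a B) ≤ n * (1 + R * (d / e)) := by
  classical
  have hc0 : ∀ i, 0 ≤ c i := fun i => hc.pos.le.trans (hc.lo i)
  have h1 : n2 (vtx a B) ≤ d / e := by
    rw [vtx]
    refine (helper47.n2_sum_le _ _).trans ((Finset.sum_le_sum fun k _ => hR.nu_le B k).trans ?_)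
    rw [Finset.sum_const, Finset.card_univ, Fintype.card_fin, nsmul_eq_mul]
    apply le_of_eq
    ring
  have hS : 0 ≤ 1 + R * (d / e) := by
    have : (0 : ℝ) ≤ d := Nat.cast_nonneg d
    positivity
  have h2 : ∀ i, sl a (vtx a B) i ≤ 1 + R * (d / e) := by
    intro i
    have h3 := helper47.abs_dot_le (a i) (vtx a B)
    have h4 : n2 (a i) * n2 (vtx a B) ≤ R * (d / e) :=
      mul_le_mul (hR.norm_le i) h1 (helper47.n2_nonneg _) hR0
    have h5 := neg_abs_le (a i ⬝ᵥ vtx a B)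
    rw [sl]
    linarith
  have h6 : ∀ i, c i * sl a (vtx a B) i ≤ 1 + R * (d / e) := fun i =>
    (mul_le_mul_of_nonneg_left (h2 i) (hc0 i)).trans (mul_le_of_le_one_left hS (hc.hi i))
  refine (Finset.sum_le_sum fun i _ => h6 i).trans ?_
  rw [Finset.sum_const, Finset.card_univ, Fintype.card_fin, nsmul_eq_mul]

theorem ct_le_norm {a : Fin n → Fin d → ℝ} {R e τ T : ℝ} {k : ℕ} {G : Finset (Fin n)}
    (hR : Reg a R e τ T k G) (hd : 1 ≤ d) {c : Fin n → ℝ} {ε : ℝ}
    (hc : Scale c G ε) {B : Idx n d} (hB : Good a B) :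
    ct a c (vtx a B) ≤ (G.card + 1) * (2 * R) * n2 (vtx a B) := by
  classical
  have hc0 : ∀ i, 0 ≤ c i := fun i => hc.pos.le.trans (hc.lo i)
  have h1 : 1 ≤ R * n2 (vtx a B) := by
    have h2 := helper47.dot_vtx hB.1 (⟨0, hd⟩ : Fin d)
    have h3 := helper47.dot_le (a (B ⟨0, hd⟩)) (vtx a B)
    rw [h2] at h3
    exact h3.trans (mul_le_mul_of_nonneg_right (hR.norm_le _) (helper47.n2_nonneg _))
  have h2 : ∀ i, sl a (vtx a B) i ≤ 2 * R * n2 (vtx a B) := by
    intro i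
    have h3 := helper47.abs_dot_le (a i) (vtx a B)
    have h4 : n2 (a i) * n2 (vtx a B) ≤ R * n2 (vtx a B) :=
      mul_le_mul_of_nonneg_right (hR.norm_le i) (helper47.n2_nonneg _)
    have h5 := neg_abs_le (a i ⬝ᵥ vtx a B)
    rw [sl]
    linarith
  have h0 : 0 ≤ 2 * R * n2 (vtx a B) := by linarith
  have h3 : ct a c (vtx a B) ≤ ∑ i, c i * (2 * R * n2 (vtx a B)) :=
    Finset.sum_le_sum fun i _ => mul_le_mul_of_nonneg_left (h2 i) (hc0 i)
  rw [← Finset.sum_mul] at h3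
  refine h3.trans ((mul_le_mul_of_nonneg_right hc.sum_le h0).trans (le_of_eq ?_))
  ring

end Pool.Agent.H.MP_0cad2f_co.qq
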