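import Pool.Agent.H.MP_0cad2f_co.qp.Idx
import Pool.Agent.H.MP_0cad2f_co.qp.LP
import Pool.Agent.H.MP_0cad2f_co.qp.Adj
import Pool.Agent.H.MP_0cad2f_co.qp.Face
import Pool.Agent.H.MP_0cad2f_co.Qp.KK
import Pool.Agent.H.MP_0cad2f_co.qq.Defs
import Pool.Agent.H.MP_0cad2f_co.qq.Bounds

/-! One hop: between two vertices whose near optimal neighbours only use few constraints. -/

set_option autoImplicit false

namespace Pool.Agent.H.MP_0cad2f_co.qq

open MeasureTheory ProbabilityTheory Matrix Finset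
open scoped NNReal ENNReal
open Pool.Agent.H.MP_0cad2f_co.helper47 (Vert graph gau noise n2 Idx mat nu vtx Good Simple)
open Pool.Agent.H.MP_0cad2f_co.helper29 (toVert)
open Pool.Agent.H.MP_0cad2f_co.qp (sl obj mul idx IsMin seg wt idx_injective mem_idx
  card_idx sl_basis face_step edist_le_one unique_min)
open Pool.MP_0cad2f_co.Qp (kkH kkH_bound KStep KReach kk)

variable {n d : ℕ}

theorem Hop_kkH_HR {d f m r : ℕ} (hf : f ≤ d) (hm : m < 2 ^ r) : kkH f m ≤ HR d r := by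
  have h2 := kkH_bound _ f m r rfl hm
  have h3 : (f + r).choose r ≤ (d + r).choose r := Nat.choose_le_choose _ (by omega)
  have h4 : 2 ^ r * (f + r).choose r ≤ 2 ^ r * (d + r).choose r := Nat.mul_le_mul le_rfl h3
  rw [HR]
  omega

/-- The adjacency of index sets. -/
private def HopAdj (a : Fin n → Fin d → ℝ) (I J : Finset (Fin n)) : Prop :=
  ∃ B B' : Idx n d, Good a B ∧ Good a B' ∧ idx B = I ∧ idx B' = J ∧
    ∃ k, (idx B).erase (B k) ⊆ idx B'

private theorem Hop_edist {a : Fin n → Fin d → ℝ} (hs : Simple a) {G : Finset (Fin n) → ℝ}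
    {V : Set (Finset (Fin n))} {S : Finset (Fin n)} {k : ℕ} {I J : Finset (Fin n)}
    (h : KReach V G (HopAdj a) S k I J) : ∀ (B B' : Idx n d) (hB : Good a B) (hB' : Good a B'),
      idx B = I → idx B' = J →
      (graph a).edist (toVert a ⟨B, hB⟩) (toVert a ⟨B', hB'⟩) ≤ (k : ℕ∞) := by
  induction h with
  | refl k I =>
    intro B B' hB hB' h1 h2
    have h3 : B = B' := idx_injective (h1.trans h2.symm)
    subst h3
    rw [SimpleGraph.edist_self]
    exact bot_le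
  | step h1 _ ih =>
    intro B B' hB hB' hBI hB'J
    obtain ⟨C, C', hC, hC', h2, h3, k, h4⟩ := h1.adj
    have h5 : C = B := idx_injective (h2.trans hBI.symm)
    subst h5
    refine (SimpleGraph.edist_triangle (v := toVert a ⟨C', hC'⟩)).trans ?_
    have h6 := edist_le_one hs hB hC' h4
    have h7 := ih C' B' hC' hB' h3 hB'J
    rw [Nat.cast_add, Nat.cast_one, add_comm]
    exact add_le_add h7 h6

/-- Near optimal vertices only use constraints which are nearly tight at the optimum. -/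
private theorem Hop_near {a : Fin n → Fin d → ℝ} {R e τ T : ℝ} {k : ℕ} {G : Finset (Fin n)}
    (hR : Reg a R e τ T k G) (hT : 0 ≤ T) {c : Fin n → ℝ} {ε : ℝ}
    (hc : Scale c G ε) {μ : ℝ} (hμ : 0 ≤ μ) (hd : 1 ≤ d)
    (hμT : T * G.card * μ * ((G.card + 1) * (2 * R)) ≤ τ) {v x : Idx n d} (hv : Good a v)
    (hiso : ∀ l ∈ G, |sl a (vtx a x) l - sl a (vtx a v) l| ≤ μ * ct a c (vtx a v))
    {i : Fin n} (hi : i ∈ idx x) : sl a (vtx a v) i ≤ τ * n2 (vtx a v) := by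
  obtain ⟨k, rfl⟩ := mem_idx.1 hi
  have h0 : sl a (vtx a x) (x k) = 0 := sl_basis (hR.det_ne x) k
  have h1 : ∀ l, a l ⬝ᵥ (vtx a x - vtx a v) = -(sl a (vtx a x) l - sl a (vtx a v) l) := by
    intro l
    rw [dotProduct_sub, sl, sl]
    ring
  have h2 := hR.span (vtx a x - vtx a v) (x k)
  rw [h1, abs_neg, h0, zero_sub, abs_neg] at h2
  have h3 : ∑ l ∈ G, |a l ⬝ᵥ (vtx a x - vtx a v)| ≤ G.card * (μ * ct a c (vtx a v)) := by
    have h4 : ∀ l ∈ G, |a l ⬝ᵥ (vtx a x - vtx a v)| ≤ μ * ct a c (vtx a v) := by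
      intro l hl
      rw [h1, abs_neg]
      exact hiso l hl
    have h5 := Finset.sum_le_card_nsmul G _ _ h4
    rwa [nsmul_eq_mul] at h5
  have h6 := ct_le_norm hR hd hc hv
  have h7 : 0 ≤ T * G.card * μ := by positivity
  have hn : 0 ≤ n2 (vtx a v) := helper47.n2_nonneg _
  calc sl a (vtx a v) (x k) ≤ |sl a (vtx a v) (x k)| := le_abs_self _
    _ ≤ T * ∑ l ∈ G, |a l ⬝ᵥ (vtx a x - vtx a v)| := h2
    _ ≤ T * (G.card * (μ * ct a c (vtx a v))) := mul_le_mul_of_nonneg_left h3 hT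
    _ = T * G.card * μ * ct a c (vtx a v) := by ring
    _ ≤ T * G.card * μ * ((G.card + 1) * (2 * R) * n2 (vtx a v)) :=
        mul_le_mul_of_nonneg_left h6 h7
    _ = T * G.card * μ * ((G.card + 1) * (2 * R)) * n2 (vtx a v) := by ring
    _ ≤ τ * n2 (vtx a v) := mul_le_mul_of_nonneg_right hμT hn

open Classical in
theorem hop_dist {a : Fin n → Fin d → ℝ} {R e τ T : ℝ} {k : ℕ} {G : Finset (Fin n)}
    (hR : Reg a R e τ T k G) (he : 0 < e) (hT : 0 ≤ T) {c : Fin n → ℝ} {ε : ℝ}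
    (hc : Scale c G ε) {μ : ℝ} (hμ : 0 ≤ μ) (hd : 1 ≤ d) {r : ℕ} (hr : d + k < 2 ^ r)
    (hμT : T * G.card * μ * ((G.card + 1) * (2 * R)) ≤ τ) {θ : Fin n → ℝ}
    (hθ : ∀ i, 0 ≤ θ i) (hnd : ∀ (B : Idx n d) (k : Fin d), mul a B θ k ≠ 0) {u v : Idx n d}
    (hu : Good a u) (hv : IsMin a θ v)
    (hiso : ∀ x : Idx n d, Good a x → obj a θ (vtx a x) ≤ obj a θ (vtx a u) →
      ∀ l ∈ G, |sl a (vtx a x) l - sl a (vtx a v) l| ≤ μ * ct a c (vtx a v)) :
    (graph a).edist (toVert a ⟨u, hu⟩) (toVert a ⟨v, hv.1⟩) ≤ (HR d r : ℕ∞) := by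
  have hs := hR.simple he
  have hdet := hR.det_ne
  let V : Set (Finset (Fin n)) := {I | ∃ B : Idx n d, Good a B ∧ idx B = I}
  let F : Finset (Fin n) → ℝ := Function.extend (idx : Idx n d → Finset (Fin n))
    (fun B => obj a θ (vtx a B)) 0
  have hF : ∀ B : Idx n d, F (idx B) = obj a θ (vtx a B) := fun B =>
    idx_injective.extend_apply _ _ B
  have hcard : ∀ I ∈ V, I.card = d := by
    rintro I ⟨B, -, rfl⟩
    exact card_idx B
  have himp : ∀ S I : Finset (Fin n), I ∈ V → S ⊆ I → (∃ J ∈ V, S ⊆ J ∧ F J < F I) →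
      ∃ J, KStep V F (HopAdj a) S I J := by
    rintro S I ⟨B, hB, rfl⟩ hS ⟨J, ⟨B₁, hB₁, rfl⟩, hS₁, hlt⟩
    rw [hF, hF] at hlt
    obtain ⟨B', hB', hS', hlt', k, hk⟩ := face_step hdet hs hθ hB hB₁ hS hS₁ hlt
    exact ⟨idx B', ⟨B, hB, rfl⟩, ⟨B', hB', rfl⟩, hS, hS', ⟨B, B', hB, hB', rfl, rfl, k, hk⟩, by
      rw [hF, hF]
      exact hlt'⟩
  let A : Finset (Fin n) := Finset.univ.filter fun i => sl a (vtx a v) i ≤ τ * n2 (vtx a v)
  have hA : ∀ x : Idx n d, Good a x → obj a θ (vtx a x) ≤ obj a θ (vtx a u) → idx x ⊆ A := by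
    intro x hx hle i hi
    exact Finset.mem_filter.2 ⟨Finset.mem_univ _,
      Hop_near hR hT hc hμ hd hμT hv.1 (hiso x hx hle) hi⟩
  have huA : idx u ⊆ A := hA u hu le_rfl
  have hvA : idx v ⊆ A := hA v hv.1 (hv.2 u hu)
  have hAcard : A.card ≤ d + k := by
    have h1 : A ⊆ idx v ∪ Finset.univ.filter fun i =>
        i ∉ Set.range v ∧ sl a (vtx a v) i ≤ τ * n2 (vtx a v) := by
      intro i hi
      rw [Finset.mem_union]
      by_cases h : i ∈ Set.range v
      · exact Or.inl (mem_idx.2 h)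
      · exact Or.inr (Finset.mem_filter.2 ⟨Finset.mem_univ _, h, (Finset.mem_filter.1 hi).2⟩)
    have h2 := hR.near_le v hv.1
    have h3 : Set.ncard {i | i ∉ Set.range v ∧ sl a (vtx a v) i ≤ τ * n2 (vtx a v)} =
        (Finset.univ.filter fun i =>
          i ∉ Set.range v ∧ sl a (vtx a v) i ≤ τ * n2 (vtx a v)).card := by
      rw [← Set.ncard_coe_finset]
      congr 1
      ext i
      simp
    have h4 := Finset.card_le_card h1
    have h5 := Finset.card_union_le (idx v) (Finset.univ.filter fun i =>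
        i ∉ Set.range v ∧ sl a (vtx a v) i ≤ τ * n2 (vtx a v))
    rw [card_idx] at h5
    rw [h3] at h2
    omega
  obtain ⟨S, hS⟩ : ∃ S : Finset (Fin n), S = idx u ∩ idx v := ⟨_, rfl⟩
  have hSu : S ⊆ idx u := hS ▸ Finset.inter_subset_left
  have hSv : S ⊆ idx v := hS ▸ Finset.inter_subset_right
  have hScard' : S.card ≤ d := by
    have h1 := Finset.card_le_card hSu
    rwa [card_idx] at h1
  have hU : (A \ S).card ≤ d + k := (Finset.card_le_card Finset.sdiff_subset).trans hAcard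
  obtain ⟨T', hT', hTmin⟩ := kk (V := V) (G := F) (Adj := HopAdj a) hcard himp _ (d - S.card)
    (d + k) S (idx u) (A \ S) rfl (by omega) ⟨u, hu, rfl⟩ hSu hU (by
      intro J hJ
      obtain ⟨⟨x, hx, rfl⟩, -⟩ := hJ.mem ⟨u, hu, rfl⟩ hSu
      have h1 := hJ.le
      rw [hF, hF] at h1
      exact Finset.sdiff_subset_sdiff (hA x hx h1) (Finset.Subset.refl S))
  obtain ⟨⟨x, hx, hxT⟩, hST⟩ := hT'.mem ⟨u, hu, rfl⟩ hSu
  subst hxT
  have hle : obj a θ (vtx a x) ≤ obj a θ (vtx a v) := by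
    have h1 := hTmin (idx v) ⟨v, hv.1, rfl⟩ hSv
    rwa [hF, hF] at h1
  have hxv : x = v := unique_min hdet hs hθ hnd hv.1 hx hSv hST
    (fun B' hB' _ => hv.2 B' hB') hle
  subst hxv
  refine (Hop_edist hs hT' u x hu hv.1 rfl rfl).trans ?_
  exact_mod_cast Hop_kkH_HR (by omega) hr

end Pool.Agent.H.MP_0cad2f_co.qq
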