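import Pool.Agent.H.MP_0cad2f_co.qq.Bounds
import Pool.Agent.H.MP_0cad2f_co.qq.Hop
import Pool.Agent.H.MP_0cad2f_co.qp.StageDist

/-!
The distance between the optima of two consecutive objectives (weights with scales).
-/

set_option autoImplicit false

namespace Pool.Agent.H.MP_0cad2f_co.qq

open MeasureTheory ProbabilityTheory Matrix Finset
open scoped NNReal ENNReal
open Pool.Agent.H.MP_0cad2f_co.helper47 (Vert graph gau noise n2 Idx mat nu vtx Good Simple)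
open Pool.Agent.H.MP_0cad2f_co.helper29 (toVert)
open Pool.Agent.H.MP_0cad2f_co.qp (sl obj mul idx IsMin seg wt)

variable {n d : ℕ}

private theorem stage_mem {B : Idx n d} {i : Fin n} : i ∈ idx B ↔ i ∈ Set.range B := by
  simp [idx]

private theorem stage_seg_nonneg {c θ θ' : Fin n → ℝ} {lam : ℝ} (hc : ∀ i, 0 ≤ c i)
    (hl : 0 < lam) (hS : Stage c θ θ' lam) {t : ℝ}
    (h0 : 0 ≤ t) (h1 : t ≤ 1) (i : Fin n) : 0 ≤ seg θ θ' t i := by
  have h2 := hS.nonneg i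
  have h3 := hS.lo i
  have h6 : 0 ≤ lam / 2 * c i := _root_.mul_nonneg (by positivity) (hc i)
  have h4 : 0 ≤ θ' i := by linarith
  have h5 : 0 ≤ 1 - t := by linarith
  exact add_nonneg (_root_.mul_nonneg h5 h2) (_root_.mul_nonneg h0 h4)

private theorem stage_obj_diff_le {a : Fin n → Fin d → ℝ} {c θ θ' : Fin n → ℝ} {lam : ℝ}
    (hS : Stage c θ θ' lam) {B : Idx n d} (hB : Good a B) :
    obj a (fun i => θ' i - θ i) (vtx a B) ≤ 9 * lam * ct a c (vtx a B) := by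
  simp only [obj, ct]
  rw [Finset.mul_sum]
  refine Finset.sum_le_sum fun i _ => ?_
  have h1 := mul_le_mul_of_nonneg_right (hS.hi i) (qp.sl_nonneg hB i)
  linarith

private theorem stage_le_obj_diff {a : Fin n → Fin d → ℝ} {c θ θ' : Fin n → ℝ} {lam : ℝ}
    (hS : Stage c θ θ' lam) {B : Idx n d} (hB : Good a B) :
    lam / 2 * ct a c (vtx a B) ≤ obj a (fun i => θ' i - θ i) (vtx a B) := by
  simp only [obj, ct]
  rw [Finset.mul_sum]
  refine Finset.sum_le_sum fun i _ => ?_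
  have h1 := mul_le_mul_of_nonneg_right (hS.lo i) (qp.sl_nonneg hB i)
  linarith

/-- A good hop. -/
private theorem stage_hop {a : Fin n → Fin d → ℝ} {R e τ T : ℝ} {k₁ : ℕ} {G : Finset (Fin n)}
    (hR : Reg a R e τ T k₁ G) (he : 0 < e) (hT : 0 ≤ T) {c : Fin n → ℝ} {ε : ℝ}
    (hc : Scale c G ε) {μ : ℝ} (hμ : 0 ≤ μ) (hd : 1 ≤ d) {r : ℕ} (hr : d + k₁ < 2 ^ r)
    (hμT : T * G.card * μ * ((G.card + 1) * (2 * R)) ≤ τ) {ν η lam : ℝ} (hν : 0 < ν) {J : ℕ}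
    (hl : 0 < lam) {θ θ' : Fin n → ℝ}
    (hS : Stage c θ θ' lam) (hG : GoodSeg a G c μ ν η lam J θ θ') {m k : ℕ} (hm : m ≤ J)
    (hk : k < 2 ^ m) {u v : Idx n d} (hu : IsMin a (seg θ θ' ((k : ℝ) / 2 ^ m)) u)
    (hv : IsMin a (seg θ θ' (((k + 1 : ℕ) : ℝ) / 2 ^ m)) v)
    (hN : obj a (fun i => θ' i - θ i) (vtx a u) ≤
      (1 + ν) * obj a (fun i => θ' i - θ i) (vtx a v)) :
    (graph a).edist (toVert a ⟨u, hu.1⟩) (toVert a ⟨v, hv.1⟩) ≤ (HR d r : ℕ∞) := by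
  have hp : (0 : ℝ) < 2 ^ m := by positivity
  have hk1 : ((k + 1 : ℕ) : ℝ) ≤ 2 ^ m := by exact_mod_cast hk
  have ht0 : (0 : ℝ) ≤ ((k + 1 : ℕ) : ℝ) / 2 ^ m := by positivity
  have ht1 : ((k + 1 : ℕ) : ℝ) / 2 ^ m ≤ 1 := (div_le_one hp).2 hk1
  have hpow : (2 : ℝ) ^ J = 2 ^ m * 2 ^ (J - m) := by
    rw [← pow_add, Nat.add_sub_cancel' hm]
  have ht2 : (((k + 1) * 2 ^ (J - m) : ℕ) : ℝ) / 2 ^ J = ((k + 1 : ℕ) : ℝ) / 2 ^ m := by
    rw [hpow]
    push_cast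
    rw [mul_div_mul_right _ _ (by positivity)]
  have hkJ : (k + 1) * 2 ^ (J - m) ≤ 2 ^ J := by
    calc (k + 1) * 2 ^ (J - m) ≤ 2 ^ m * 2 ^ (J - m) := Nat.mul_le_mul_right _ hk
      _ = 2 ^ J := by rw [← pow_add, Nat.add_sub_cancel' hm]
  have hc0 : ∀ i, 0 ≤ c i := fun i => hc.pos.le.trans (hc.lo i)
  refine hop_dist hR he hT hc hμ hd hr hμT (stage_seg_nonneg hc0 hl hS ht0 ht1) ?_ hu.1 hv ?_
  · intro B i
    have h := hG.nd _ hkJ B i
    rwa [ht2] at h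
  · intro x hx hle
    refine hG.iso m hm (k + 1) hk v x hv hx (hle.trans ?_)
    have h1 := qp.gap_le (t := ((k + 1 : ℕ) : ℝ) / 2 ^ m) hu hv.1
    have h2 : ((k + 1 : ℕ) : ℝ) / 2 ^ m - (k : ℝ) / 2 ^ m = 1 / 2 ^ m := by
      push_cast
      ring
    rw [h2] at h1
    refine h1.trans ?_
    have h3 := stage_obj_diff_le hS hv.1
    have h4 : obj a (fun i => θ' i - θ i) (vtx a u) - obj a (fun i => θ' i - θ i) (vtx a v) ≤
        ν * (9 * lam * ct a c (vtx a v)) := by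
      have h5 := mul_le_mul_of_nonneg_left h3 hν.le
      linarith
    have h6 := mul_le_mul_of_nonneg_left h4 (by positivity : (0 : ℝ) ≤ 1 / 2 ^ m)
    have h7 : 1 / 2 ^ m * (ν * (9 * lam * ct a c (vtx a v))) =
        9 * ν / 2 ^ m * lam * ct a c (vtx a v) := by ring
    linarith

/-- At the finest times consecutive optima are equal or adjacent. -/
private theorem stage_fin {a : Fin n → Fin d → ℝ} {R e τ T : ℝ} {k₁ : ℕ} {G : Finset (Fin n)}
    (hR : Reg a R e τ T k₁ G) (he : 0 < e) {c : Fin n → ℝ} {ε : ℝ}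
    (hc : Scale c G ε) {μ : ℝ} (hd : 1 ≤ d) {Mm : ℝ} (hMm : ∀ B : Idx n d, Good a B → ct a c (vtx a B) ≤ Mm)
    {ν η lam : ℝ} {J : ℕ} (hn : d < n)
    (hl : 0 < lam) (hη : 9 * lam * Mm / (2 ^ J * e) ≤ η) {θ θ' : Fin n → ℝ}
    (hS : Stage c θ θ' lam) (hG : GoodSeg a G c μ ν η lam J θ θ') {k : ℕ}
    (hk : k < 2 ^ J) {u v : Idx n d} (hu : IsMin a (seg θ θ' ((k : ℝ) / 2 ^ J)) u)
    (hv : IsMin a (seg θ θ' (((k + 1 : ℕ) : ℝ) / 2 ^ J)) v) :
    (graph a).edist (toVert a ⟨u, hu.1⟩) (toVert a ⟨v, hv.1⟩) ≤ 1 := by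
  have hp : (0 : ℝ) < 2 ^ J := by positivity
  have hk1 : ((k + 1 : ℕ) : ℝ) ≤ 2 ^ J := by exact_mod_cast hk
  have ht0 : (0 : ℝ) ≤ ((k + 1 : ℕ) : ℝ) / 2 ^ J := by positivity
  have ht1 : ((k + 1 : ℕ) : ℝ) / 2 ^ J ≤ 1 := (div_le_one hp).2 hk1
  have hs := Reg.simple hR he
  have hc0 : ∀ i, 0 ≤ c i := fun i => hc.pos.le.trans (hc.lo i)
  have hθ := stage_seg_nonneg hc0 hl hS ht0 ht1
  have hεe : 0 < ε * e := mul_pos hc.pos he
  have hmul : ∀ j, 0 ≤ mul a v (seg θ θ' (((k + 1 : ℕ) : ℝ) / 2 ^ J)) j :=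
    fun j => qp.mul_nonneg hR.det_ne hs hθ hv j
  have hslu : ∀ j, 0 ≤ sl a (vtx a u) (v j) := fun j => qp.sl_nonneg hu.1 _
  -- the gap
  have h1 := qp.gap_le (t := ((k + 1 : ℕ) : ℝ) / 2 ^ J) hu hv.1
  have h2 : ((k + 1 : ℕ) : ℝ) / 2 ^ J - (k : ℝ) / 2 ^ J = 1 / 2 ^ J := by
    push_cast
    ring
  rw [h2, qp.obj_eq (hR.det_ne v) _ (vtx a u)] at h1
  have h3 := (stage_obj_diff_le hS hu.1).trans
    (mul_le_mul_of_nonneg_left (hMm u hu.1) (by positivity : (0 : ℝ) ≤ 9 * lam))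
  have h4 := stage_le_obj_diff hS hv.1
  have h5 : 0 < lam / 2 * ct a c (vtx a v) :=
    mul_pos (by positivity) (lt_of_lt_of_le hεe (ct_ge hR he hn hc hv.1))
  have h6 : obj a (fun i => θ' i - θ i) (vtx a u) - obj a (fun i => θ' i - θ i) (vtx a v) ≤
      9 * lam * Mm := by linarith
  have h7 := mul_le_mul_of_nonneg_left h6 (by positivity : (0 : ℝ) ≤ 1 / 2 ^ J)
  have h8 : ∑ j, mul a v (seg θ θ' (((k + 1 : ℕ) : ℝ) / 2 ^ J)) j * sl a (vtx a u) (v j) ≤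
      1 / 2 ^ J * (9 * lam * Mm) := by linarith
  have h9 : 1 / 2 ^ J * (9 * lam * Mm) ≤ η * e := by
    have h10 := mul_le_mul_of_nonneg_right hη he.le
    have h11 : 9 * lam * Mm / (2 ^ J * e) * e = 1 / 2 ^ J * (9 * lam * Mm) := by
      field_simp
    linarith
  -- large multipliers are tight at `u`
  have key : ∀ j, η < mul a v (seg θ θ' (((k + 1 : ℕ) : ℝ) / 2 ^ J)) j → v j ∈ idx u := by
    intro j hj
    rw [stage_mem]
    by_contra hjr
    have h10 := hR.sl_ge u (v j) hjr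
    rw [abs_of_nonneg (hslu j)] at h10
    have h11 : mul a v (seg θ θ' (((k + 1 : ℕ) : ℝ) / 2 ^ J)) j * sl a (vtx a u) (v j) ≤
        ∑ j, mul a v (seg θ θ' (((k + 1 : ℕ) : ℝ) / 2 ^ J)) j * sl a (vtx a u) (v j) :=
      Finset.single_le_sum (f := fun j =>
        mul a v (seg θ θ' (((k + 1 : ℕ) : ℝ) / 2 ^ J)) j * sl a (vtx a u) (v j))
        (fun j _ => _root_.mul_nonneg (hmul j) (hslu j)) (Finset.mem_univ j)
    have h12 : η * e < mul a v (seg θ θ' (((k + 1 : ℕ) : ℝ) / 2 ^ J)) j * e :=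
      mul_lt_mul_of_pos_right hj he
    have h13 := mul_le_mul_of_nonneg_left h10 (hmul j)
    linarith
  -- all multipliers but one are large
  obtain ⟨k₀, hk₀⟩ : ∃ k₀ : Fin d, ∀ j ≠ k₀,
      η < mul a v (seg θ θ' (((k + 1 : ℕ) : ℝ) / 2 ^ J)) j := by
    by_cases hex : ∃ k₀, |mul a v (seg θ θ' (((k + 1 : ℕ) : ℝ) / 2 ^ J)) k₀| ≤ η
    · obtain ⟨k₀, hk₀⟩ := hex
      refine ⟨k₀, fun j hj => ?_⟩
      rcases hG.two (k + 1) hk v j k₀ hj with h | h
      · rwa [abs_of_nonneg (hmul j)] at h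
      · exact absurd hk₀ (not_le.2 h)
    · push Not at hex
      refine ⟨⟨0, hd⟩, fun j _ => ?_⟩
      have h := hex j
      rwa [abs_of_nonneg (hmul j)] at h
  rw [SimpleGraph.edist_comm]
  refine qp.edist_le_one hs hv.1 hu.1 (k := k₀) fun i hi => ?_
  rw [Finset.mem_erase] at hi
  obtain ⟨hi1, hi2⟩ := hi
  rw [stage_mem] at hi2
  obtain ⟨j, rfl⟩ := hi2
  exact key j (hk₀ j fun h => hi1 (by rw [h]))

/-- The distance between the optima of two consecutive objectives. -/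
theorem stage_dist {a : Fin n → Fin d → ℝ} {R e τ T : ℝ} {k : ℕ} {G : Finset (Fin n)}
    (hR : Reg a R e τ T k G) (he : 0 < e) (hT : 0 ≤ T) {c : Fin n → ℝ} {ε : ℝ}
    (hc : Scale c G ε) {μ : ℝ} (hμ : 0 ≤ μ) (hn : d < n) (hd : 1 ≤ d) {r : ℕ}
    (hr : d + k < 2 ^ r) (hμT : T * G.card * μ * ((G.card + 1) * (2 * R)) ≤ τ) {Mm : ℝ}
    (hMm : ∀ B : Idx n d, Good a B → ct a c (vtx a B) ≤ Mm) {ν η lam : ℝ} (hν : 0 < ν) {J : ℕ}
    (hl : 0 < lam) (hη : 9 * lam * Mm / (2 ^ J * e) ≤ η) {θ θ' : Fin n → ℝ}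
    (hS : Stage c θ θ' lam) (hG : GoodSeg a G c μ ν η lam J θ θ') {B B' : Idx n d}
    (hB : IsMin a θ B) (hB' : IsMin a θ' B') :
    ∃ T : ℕ, (graph a).edist (toVert a ⟨B, hB.1⟩) (toVert a ⟨B', hB'.1⟩) ≤ (T : ℕ∞) ∧
      (T : ℝ) ≤ HR d r * (1 + J * (Real.log (18 * Mm / (ε * e)) / Real.log (1 + ν))) := by
  classical
  have hp : (0 : ℝ) < 2 ^ J := by positivity
  have hp' : 0 < 2 ^ J := by positivity
  have hs := Reg.simple hR he
  have hεe : 0 < ε * e := mul_pos hc.pos he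
  -- the optima at the finest times
  have hex : ∀ k : ℕ, ∃ v : {B : Idx n d // Good a B},
      (k ≤ 2 ^ J → IsMin a (seg θ θ' ((k : ℝ) / 2 ^ J)) v.1) ∧ (k = 0 → v = ⟨B, hB.1⟩) ∧
        (2 ^ J ≤ k → v = ⟨B', hB'.1⟩) := by
    intro k
    rcases Nat.eq_zero_or_pos k with hk | hk
    · refine ⟨⟨B, hB.1⟩, fun _ => ?_, fun _ => rfl, fun h => ?_⟩
      · have h1 : seg θ θ' ((k : ℝ) / 2 ^ J) = θ := by
          funext i
          simp [seg, hk]
        rw [h1]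
        exact hB
      · omega
    · rcases lt_or_ge k (2 ^ J) with h | h
      · obtain ⟨v, hv⟩ := qp.exists_isMin (seg θ θ' ((k : ℝ) / 2 ^ J)) hB.1
        exact ⟨⟨v, hv.1⟩, fun _ => hv, fun h' => by omega, fun h' => by omega⟩
      · refine ⟨⟨B', hB'.1⟩, fun h' => ?_, fun h' => by omega, fun _ => rfl⟩
        have h0 : k = 2 ^ J := le_antisymm h' h
        have h1 : seg θ θ' ((k : ℝ) / 2 ^ J) = θ' := by
          funext i
          have h2 : ((k : ℝ) / 2 ^ J) = 1 := by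
            rw [h0]
            push_cast
            exact div_self hp.ne'
          simp [seg, h2]
        rw [h1]
        exact hB'
  choose v hv hv0 hv1 using hex
  set N : ℕ → ℝ := fun k => obj a (fun i => θ' i - θ i) (vtx a (v k).1) with hNdef
  have hNpos : ∀ k, 0 < N k := fun k =>
    lt_of_lt_of_le (mul_pos (by positivity) (lt_of_lt_of_le hεe (ct_ge hR he hn hc (v k).2)))
      (stage_le_obj_diff hS (v k).2)
  have hanti : ∀ k, N (k + 1) ≤ N k := by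
    intro k
    rcases lt_or_ge k (2 ^ J) with h | h
    · refine qp.obj_diff_anti ?_ (hv k h.le) (hv (k + 1) h)
      refine div_lt_div_of_pos_right ?_ hp
      push_cast
      linarith
    · have h1 : v (k + 1) = v k := by
        rw [hv1 k h, hv1 (k + 1) (by omega)]
      simp only [hNdef, h1, le_refl]
  have hmain := qp.dyadic (fun x y => (graph a).edist (toVert a x) (toVert a y))
    (fun x y z => SimpleGraph.edist_triangle) (J := J) (H := HR d r) ?_ v N hNpos hanti hν ?_ ?_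
  · obtain ⟨T, hT1, hT2⟩ := hmain
    rw [hv0 0 rfl, hv1 (2 ^ J) le_rfl] at hT1
    refine ⟨T, hT1, hT2.trans ?_⟩
    have hlog : 0 < Real.log (1 + ν) := Real.log_pos (by linarith)
    have hlo := stage_le_obj_diff hS (v (2 ^ J)).2
    have hhi := stage_obj_diff_le hS (v 0).2
    have hMe := ct_ge hR he hn hc (v (2 ^ J)).2
    have hM0 := hMm _ (v 0).2
    have h1 : N 0 / N (2 ^ J) ≤ 18 * Mm / (ε * e) := by
      have h2 : N 0 ≤ 9 * lam * Mm :=
        hhi.trans (mul_le_mul_of_nonneg_left hM0 (by positivity))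
      have h3 : lam / 2 * (ε * e) ≤ N (2 ^ J) :=
        (mul_le_mul_of_nonneg_left hMe (by positivity)).trans hlo
      have h4 : 0 < lam / 2 * (ε * e) := by positivity
      calc N 0 / N (2 ^ J) ≤ (9 * lam * Mm) / (lam / 2 * (ε * e)) :=
            div_le_div₀ ((hNpos 0).le.trans h2) h2 h4 h3
        _ = 18 * Mm / (ε * e) := by
            have hε := hc.pos
            field_simp
            ring
    have h5 : 0 < N 0 / N (2 ^ J) := div_pos (hNpos _) (hNpos _)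
    have h6 := Real.log_le_log h5 h1
    have h7 : Real.log (N 0 / N (2 ^ J)) / Real.log (1 + ν) ≤
        Real.log (18 * Mm / (ε * e)) / Real.log (1 + ν) := div_le_div_of_nonneg_right h6 hlog.le
    have h8 := mul_le_mul_of_nonneg_left h7 (Nat.cast_nonneg (α := ℝ) J)
    exact mul_le_mul_of_nonneg_left (by linarith) (Nat.cast_nonneg _)
  · have h1 : 0 < 2 ^ r * (d + r).choose r :=
      Nat.mul_pos (by positivity) (Nat.choose_pos (Nat.le_add_left r d))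
    exact h1
  · intro m hm k hk hN
    have hpow : (2 : ℝ) ^ J = 2 ^ m * 2 ^ (J - m) := by
      rw [← pow_add, Nat.add_sub_cancel' hm]
    have hpow' : 2 ^ m * 2 ^ (J - m) = 2 ^ J := by
      rw [← pow_add, Nat.add_sub_cancel' hm]
    have hcast : ∀ j : ℕ, ((j * 2 ^ (J - m) : ℕ) : ℝ) / 2 ^ J = (j : ℝ) / 2 ^ m := by
      intro j
      rw [hpow]
      push_cast
      rw [mul_div_mul_right _ _ (by positivity)]
    have hle1 : k * 2 ^ (J - m) ≤ 2 ^ J := by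
      rw [← hpow']
      exact Nat.mul_le_mul_right _ hk.le
    have hle2 : (k + 1) * 2 ^ (J - m) ≤ 2 ^ J := by
      rw [← hpow']
      exact Nat.mul_le_mul_right _ hk
    have hu := hv _ hle1
    have hv' := hv _ hle2
    rw [hcast k] at hu
    rw [hcast (k + 1)] at hv'
    exact stage_hop hR he hT hc hμ hd hr hμT hν hl hS hG hm hk hu hv' hN
  · intro k hk
    exact stage_fin hR he hc hd hMm hn hl hη hS hG hk (hv k hk.le) (hv (k + 1) hk)

end Pool.Agent.H.MP_0cad2f_co.qq
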