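import Pool.Agent.H.MP_0cad2f_co.qq.Pairs
import Pool.Agent.H.MP_0cad2f_co.qq.StageDist
import Pool.Agent.H.MP_0cad2f_co.qp.Chain0

/-!
The diameter of Gaussian-perturbed polytopes, with a logarithmic dependence on the number of
constraints: the chain of objectives from a vertex.
-/

set_option autoImplicit false

namespace Pool.Agent.H.MP_0cad2f_co.qq

open MeasureTheory ProbabilityTheory Matrix Finset
open scoped NNReal ENNReal
open Pool.Agent.H.MP_0cad2f_co.helper47 (Vert graph gau noise n2 Idx mat nu vtx Good Simple)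
open Pool.Agent.H.MP_0cad2f_co.helper29 (toVert)
open Pool.Agent.H.MP_0cad2f_co.qp (sl obj mul idx IsMin seg wt val IsArgmin)

variable {n d : ℕ}

theorem start_min {a : Fin n → Fin d → ℝ} {R e τ T : ℝ} {k : ℕ} {G : Finset (Fin n)}
    (hR : Reg a R e τ T k G) (he : 0 < e) (hR0 : 0 ≤ R) {c : Fin n → ℝ} {ε : ℝ}
    (hc : Scale c G ε) {B : Idx n d} (hB : Good a B) {lam : ℝ} (hl : 0 ≤ lam)
    (h : 2 * n * R * lam ≤ e) {w : Fin n → ℝ} (hw : ∀ i, 0 ≤ w i ∧ w i ≤ 3 / 2) :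
    IsMin a (th c B lam w) B := by
  refine ⟨hB, fun B' hB' => ?_⟩
  have hdet := hR.det_ne B
  have hth : th c B lam w = qp.th B lam (fun i => c i * w i) := rfl
  rw [hth, qp.obj_eq hdet (qp.th B lam fun i => c i * w i) (vtx a B')]
  refine le_add_of_nonneg_right
    (Finset.sum_nonneg fun k _ => _root_.mul_nonneg ?_ (qp.sl_nonneg hB' _))
  rw [qp.mul_th hdet]
  have hcw : ∀ i, 0 ≤ c i * w i ∧ c i * w i ≤ 3 / 2 := by
    intro i
    have h1 : 0 ≤ c i := hc.pos.le.trans (hc.lo i)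
    refine ⟨_root_.mul_nonneg h1 (hw i).1, ?_⟩
    have h2 := mul_le_mul (hc.hi i) (hw i).2 (hw i).1 zero_le_one
    linarith
  have h1 : ∀ i, -(3 / 2 * (R * (1 / e))) ≤ c i * w i * (a i ⬝ᵥ nu a B k) := by
    intro i
    have h2 : |a i ⬝ᵥ nu a B k| ≤ R * (1 / e) :=
      (helper47.abs_dot_le _ _).trans
        (mul_le_mul (hR.norm_le i) (hR.nu_le B k) (helper47.n2_nonneg _) hR0)
    have h3 := (abs_le.1 h2).1
    have h4 : 0 ≤ R * (1 / e) := by positivity
    have h5 : c i * w i * -(R * (1 / e)) ≤ c i * w i * (a i ⬝ᵥ nu a B k) :=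
      mul_le_mul_of_nonneg_left h3 (hcw i).1
    have h6 : c i * w i * (R * (1 / e)) ≤ 3 / 2 * (R * (1 / e)) :=
      mul_le_mul_of_nonneg_right (hcw i).2 h4
    linarith
  have h2 : -((n : ℝ) * (3 / 2 * (R * (1 / e)))) ≤ ∑ i, c i * w i * (a i ⬝ᵥ nu a B k) := by
    calc -((n : ℝ) * (3 / 2 * (R * (1 / e)))) = ∑ _i : Fin n, -(3 / 2 * (R * (1 / e))) := by
          rw [Finset.sum_const, Finset.card_univ, Fintype.card_fin, nsmul_eq_mul]
          ring
      _ ≤ _ := Finset.sum_le_sum fun i _ => h1 i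
  have h3 : lam * ((n : ℝ) * (3 / 2 * (R * (1 / e)))) ≤ 3 / 4 := by
    have h4 : lam * ((n : ℝ) * (3 / 2 * (R * (1 / e)))) = 3 / 4 * ((2 * n * R * lam) / e) := by
      field_simp
      ring
    rw [h4]
    have h5 : (2 * n * R * lam) / e ≤ 1 := (div_le_one he).2 h
    linarith
  have h4 := mul_le_mul_of_nonneg_left h2 hl
  linarith

/-- A vertex near `B` that is optimal for `θ`. -/
private def Chain_near (a : Fin n → Fin d → ℝ) {B : Idx n d} (hB : Good a B) (T₁ : ℝ)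
    (θ : Fin n → ℝ) (m : ℕ) : Prop :=
  ∃ (v : Idx n d) (hv : IsMin a θ v) (T : ℕ),
    (graph a).edist (toVert a ⟨B, hB⟩) (toVert a ⟨v, hv.1⟩) ≤ (T : ℕ∞) ∧ (T : ℝ) ≤ m * T₁

/-- The weights with scales. -/
private theorem Chain_cw {c : Fin n → ℝ} {G : Finset (Fin n)} {ε : ℝ} (hc : Scale c G ε) {L : ℕ}
    (ω : Fin n → Fin L) (i : Fin n) : 0 < c i ∧ c i ≤ c i * wt L ω i ∧
      c i * wt L ω i ≤ 3 / 2 * c i := by
  have h0 : 0 < c i := lt_of_lt_of_le hc.pos (hc.lo i)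
  obtain ⟨h1, h2⟩ := qp.wt_bounds ω i
  refine ⟨h0, ?_, ?_⟩
  · exact le_mul_of_one_le_right h0.le h1
  · have := mul_le_mul_of_nonneg_left h2 h0.le
    linarith

/-- The difference of two consecutive objectives near `B`. -/
private theorem Chain_stage {c : Fin n → ℝ} {G : Finset (Fin n)} {ε : ℝ} (hc : Scale c G ε)
    (B : Idx n d) {lam : ℝ} (hl : 0 < lam) {L : ℕ} (ω ω' : Fin n → Fin L) :
    Stage c (fun i => Set.indicator (Set.range B) (1 : Fin n → ℝ) i + lam * (c i * wt L ω i))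
      (fun i => Set.indicator (Set.range B) (1 : Fin n → ℝ) i +
        2 * lam * (c i * wt L ω' i)) lam where
  nonneg i := by
    have h1 := qp.ind_nonneg B i
    obtain ⟨h2, h3, -⟩ := Chain_cw hc ω i
    have h4 := _root_.mul_nonneg hl.le (h2.le.trans h3)
    linarith
  lo i := by
    obtain ⟨h2, -, h3⟩ := Chain_cw hc ω i
    obtain ⟨-, h4, -⟩ := Chain_cw hc ω' i
    have h5 := mul_le_mul_of_nonneg_left h4 (by positivity : 0 ≤ 2 * lam)
    have h6 := mul_le_mul_of_nonneg_left h3 hl.le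
    linarith
  hi i := by
    obtain ⟨h2, h3, -⟩ := Chain_cw hc ω i
    obtain ⟨-, -, h4⟩ := Chain_cw hc ω' i
    have h5 := mul_le_mul_of_nonneg_left h4 (by positivity : 0 ≤ 2 * lam)
    have h6 := mul_le_mul_of_nonneg_left h3 hl.le
    have h7 := mul_pos hl h2
    linarith

/-- The difference of the last two objectives. -/
private theorem Chain_last {c : Fin n → ℝ} {G : Finset (Fin n)} {ε : ℝ} (hc : Scale c G ε)
    (B : Idx n d) {lam : ℝ} (hl : 0 < lam) (hle : 1 ≤ 2 * ε * lam) {L : ℕ}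
    (ω ω' : Fin n → Fin L) :
    Stage c (fun i => Set.indicator (Set.range B) (1 : Fin n → ℝ) i + lam * (c i * wt L ω i))
      (fun i => 0 + 4 * lam * (c i * wt L ω' i)) lam where
  nonneg i := by
    have h1 := qp.ind_nonneg B i
    obtain ⟨h2, h3, -⟩ := Chain_cw hc ω i
    have h4 := _root_.mul_nonneg hl.le (h2.le.trans h3)
    linarith
  lo i := by
    have h1 := qp.ind_le B i
    obtain ⟨h2, -, h3⟩ := Chain_cw hc ω i
    obtain ⟨-, h4, -⟩ := Chain_cw hc ω' i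
    have h5 := mul_le_mul_of_nonneg_left h4 (by positivity : 0 ≤ 4 * lam)
    have h6 := mul_le_mul_of_nonneg_left h3 hl.le
    have h7 := mul_le_mul_of_nonneg_left (hc.lo i) hl.le
    linarith
  hi i := by
    have h1 := qp.ind_nonneg B i
    obtain ⟨h2, h3, -⟩ := Chain_cw hc ω i
    obtain ⟨-, -, h4⟩ := Chain_cw hc ω' i
    have h5 := mul_le_mul_of_nonneg_left h4 (by positivity : 0 ≤ 4 * lam)
    have h6 := mul_le_mul_of_nonneg_left h3 hl.le
    have h7 := mul_pos hl h2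
    linarith

theorem chain {a : Fin n → Fin d → ℝ} {R e τ T : ℝ} {k : ℕ} {G : Finset (Fin n)}
    (hR : Reg a R e τ T k G) (he : 0 < e) (hR0 : 0 ≤ R) (hT : 0 ≤ T) {c : Fin n → ℝ} {ε : ℝ}
    (hc : Scale c G ε) {μ : ℝ} (hμ : 0 < μ) (hμ1 : μ ≤ 1) (hn : d < n) (hd : 1 ≤ d) {r : ℕ}
    (hr : d + k < 2 ^ r) (hμT : T * G.card * μ * ((G.card + 1) * (2 * R)) ≤ τ) {Mm : ℝ}
    (heM : ε * e ≤ Mm) (hMm : ∀ B : Idx n d, Good a B → ct a c (vtx a B) ≤ Mm) {ν : ℝ}
    {J J₀ J₁ L : ℕ} (hν : 0 < ν)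
    (h1 : 500000 * G.card * (J + 1) * ν * Real.log (2 * Mm / (ε * e)) ≤ μ ^ 2)
    (h3 : 1000000 * (n : ℝ) ^ d * (d : ℝ) ^ 2 * Mm ^ 2 ≤ 2 ^ J * (ε * e) ^ 2)
    (h4 : 100 * 2 ^ J * (n : ℝ) ^ d * d ≤ L) (h5 : μ * 2 ^ J ≤ 72 * ν * L)
    (h6 : 2 * n * R ≤ e * 2 ^ J₀) (h7 : 1 ≤ 2 * ε * 2 ^ J₁) {B : Idx n d} (hB : Good a B) :
    3 * L ^ n ≤ 4 * Set.ncard {ω : Fin n → Fin L |
      (∀ (B : Idx n d) (k : Fin d), mul a B (fun i => 4 * 2 ^ J₁ * (c i * wt L ω i)) k ≠ 0) ∧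
      ∃ (v : Idx n d) (hv : IsMin a (fun i => 4 * 2 ^ J₁ * (c i * wt L ω i)) v) (T : ℕ),
        (graph a).edist (toVert a ⟨B, hB⟩) (toVert a ⟨v, hv.1⟩) ≤ (T : ℕ∞) ∧
        (T : ℝ) ≤ (J₀ + J₁ + 1) *
          (HR d r * (1 + J * (Real.log (18 * Mm / (ε * e)) / Real.log (1 + ν))))} := by
  classical
  set T₁ : ℝ := HR d r * (1 + J * (Real.log (18 * Mm / (ε * e)) / Real.log (1 + ν))) with hT₁
  have hcard : Fintype.card (Fin n → Fin L) = L ^ n := by simp
  have hM0 : 0 ≤ Mm := (_root_.mul_nonneg hc.pos.le he.le).trans heM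
  -- one stage
  have step : ∀ {θ θ' : Fin n → ℝ} {lam : ℝ} {m : ℕ}, 0 < lam → Stage c θ θ' lam →
      GoodSeg a G c μ ν (10 * lam * Mm / (2 ^ J * e)) lam J θ θ' → Chain_near a hB T₁ θ m →
      Chain_near a hB T₁ θ' (m + 1) := by
    rintro θ θ' lam m hlam hS hG ⟨v, hv, T, hTv, hTv'⟩
    obtain ⟨v', hv'⟩ := qp.exists_min hB θ'
    have hη : 9 * lam * Mm / (2 ^ J * e) ≤ 10 * lam * Mm / (2 ^ J * e) := by
      have h7 : 0 ≤ lam * Mm := _root_.mul_nonneg hlam.le hM0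
      have h8 : (0 : ℝ) < 2 ^ J * e := by positivity
      rw [div_le_div_iff_of_pos_right h8]
      nlinarith
    obtain ⟨T', hT2, hT2'⟩ := stage_dist hR he hT hc hμ.le hn hd hr hμT hMm hν hlam hη hS hG hv hv'
    refine ⟨v', hv', T + T', ?_, ?_⟩
    · refine (SimpleGraph.edist_triangle (v := toVert a ⟨v, hv.1⟩)).trans ?_
      rw [Nat.cast_add]
      exact add_le_add hTv hT2
    · push_cast
      rw [add_mul, one_mul]
      exact add_le_add hTv' hT2'
  -- all stages near `B`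
  have key : ∀ j : ℕ, Fintype.card (Fin n → Fin L) ≤ 2 * Set.ncard {ω : Fin n → Fin L |
      Chain_near a hB T₁ (fun i => Set.indicator (Set.range B) (1 : Fin n → ℝ) i +
        2 ^ j / 2 ^ J₀ * (c i * wt L ω i)) j} := by
    intro j
    induction j with
    | zero =>
      have h7 : {ω : Fin n → Fin L |
          Chain_near a hB T₁ (fun i => Set.indicator (Set.range B) (1 : Fin n → ℝ) i +
            2 ^ 0 / 2 ^ J₀ * (c i * wt L ω i)) 0} = Set.univ := by
        rw [Set.eq_univ_iff_forall]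
        intro ω
        have h8 : IsMin a (th c B (2 ^ 0 / 2 ^ J₀) (wt L ω)) B := by
          refine start_min hR he hR0 hc hB (by positivity) ?_ fun i =>
            ⟨zero_le_one.trans (qp.wt_bounds ω i).1, (qp.wt_bounds ω i).2⟩
          rw [pow_zero, ← mul_div_assoc, mul_one, div_le_iff₀ (by positivity)]
          exact h6
        refine ⟨B, h8, 0, ?_, ?_⟩
        · simp
        · simp
      rw [h7, Set.ncard_univ, Nat.card_eq_fintype_card]
      omega
    | succ j ih =>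
      have hlam : (0 : ℝ) < 2 ^ j / 2 ^ J₀ := by positivity
      have hbad := bad_pairs hR he hc hμ hμ1 hn hd heM hMm (ν := ν) (lam := 2 ^ j / 2 ^ J₀)
        (lam' := 2 * (2 ^ j / 2 ^ J₀)) (J := J) (L := L) hν hlam (by linarith) h1 h3 h4 h5
        (Set.indicator (Set.range B) (1 : Fin n → ℝ))
        (Set.indicator (Set.range B) (1 : Fin n → ℝ))
      rw [← hcard] at hbad
      have hst := qp.chain_step (Ω := Fin n → Fin L) _
        (fun p q => ¬ GoodSeg a G c μ ν (10 * (2 ^ j / 2 ^ J₀) * Mm / (2 ^ J * e))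
          (2 ^ j / 2 ^ J₀) J
          (fun i => Set.indicator (Set.range B) (1 : Fin n → ℝ) i +
            2 ^ j / 2 ^ J₀ * (c i * wt L p i))
          (fun i => Set.indicator (Set.range B) (1 : Fin n → ℝ) i +
            2 * (2 ^ j / 2 ^ J₀) * (c i * wt L q i))) ih hbad
      have hsub : Set.ncard {y : Fin n → Fin L | ∃ x ∈ {ω : Fin n → Fin L |
          Chain_near a hB T₁ (fun i => Set.indicator (Set.range B) (1 : Fin n → ℝ) i +
            2 ^ j / 2 ^ J₀ * (c i * wt L ω i)) j}, ¬ ¬ GoodSeg a G c μ ν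
          (10 * (2 ^ j / 2 ^ J₀) * Mm / (2 ^ J * e)) (2 ^ j / 2 ^ J₀) J
          (fun i => Set.indicator (Set.range B) (1 : Fin n → ℝ) i +
            2 ^ j / 2 ^ J₀ * (c i * wt L x i))
          (fun i => Set.indicator (Set.range B) (1 : Fin n → ℝ) i +
            2 * (2 ^ j / 2 ^ J₀) * (c i * wt L y i))} ≤
          Set.ncard {ω : Fin n → Fin L |
            Chain_near a hB T₁ (fun i => Set.indicator (Set.range B) (1 : Fin n → ℝ) i +
              2 ^ (j + 1) / 2 ^ J₀ * (c i * wt L ω i)) (j + 1)} := by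
        refine Set.ncard_le_ncard ?_ (Set.toFinite _)
        rintro y ⟨x, hx, hxy⟩
        have h9 := step hlam (Chain_stage hc B hlam x y) (not_not.1 hxy) hx
        have h10 : (2 : ℝ) * (2 ^ j / 2 ^ J₀) = 2 ^ (j + 1) / 2 ^ J₀ := by
          rw [pow_succ]; ring
        rw [h10] at h9
        exact h9
      omega
  -- the last stage
  have hJ := key (J₀ + J₁)
  have h8 : (2 : ℝ) ^ (J₀ + J₁) / 2 ^ J₀ = 2 ^ J₁ := by
    rw [pow_add]
    field_simp
  rw [h8] at hJ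
  have hlam : (0 : ℝ) < 2 ^ J₁ := by positivity
  have hbad := bad_pairs hR he hc hμ hμ1 hn hd heM hMm (ν := ν) (lam := 2 ^ J₁)
    (lam' := 4 * 2 ^ J₁) (J := J) (L := L) hν hlam (by linarith) h1 h3 h4 h5
    (Set.indicator (Set.range B) (1 : Fin n → ℝ)) (fun _ => 0)
  rw [← hcard] at hbad
  have hst := qp.chain_step (Ω := Fin n → Fin L) _
    (fun p q => ¬ GoodSeg a G c μ ν (10 * 2 ^ J₁ * Mm / (2 ^ J * e)) (2 ^ J₁) J
      (fun i => Set.indicator (Set.range B) (1 : Fin n → ℝ) i + 2 ^ J₁ * (c i * wt L p i))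
      (fun i => 0 + 4 * 2 ^ J₁ * (c i * wt L q i))) hJ hbad
  rw [← hcard]
  refine hst.trans (Nat.mul_le_mul_left _ (Set.ncard_le_ncard ?_ (Set.toFinite _)))
  rintro y ⟨x, hx, hxy⟩
  have hG := not_not.1 hxy
  have h9 : (fun i => 0 + 4 * 2 ^ J₁ * (c i * wt L y i)) =
      fun i => 4 * 2 ^ J₁ * (c i * wt L y i) := by
    funext i
    rw [zero_add]
  have h10 : Chain_near a hB T₁ (fun i => 0 + 4 * 2 ^ J₁ * (c i * wt L y i)) (J₀ + J₁ + 1) :=
    step hlam (Chain_last hc B hlam h7 x y) hG hx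
  rw [h9] at h10
  refine ⟨fun B' k => ?_, ?_⟩
  · have h11 := hG.nd (2 ^ J) le_rfl B' k
    have h12 : seg (fun i => Set.indicator (Set.range B) (1 : Fin n → ℝ) i +
          2 ^ J₁ * (c i * wt L x i))
        (fun i => 0 + 4 * 2 ^ J₁ * (c i * wt L y i)) (((2 ^ J : ℕ) : ℝ) / 2 ^ J) =
          fun i => 4 * 2 ^ J₁ * (c i * wt L y i) := by
      funext i
      rw [Nat.cast_pow, Nat.cast_ofNat, div_self (by positivity : (2 : ℝ) ^ J ≠ 0), seg]
      ring
    rw [h12] at h11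
    exact h11
  · obtain ⟨v, hv, T, hTv, hTv'⟩ := h10
    refine ⟨v, hv, T, hTv, ?_⟩
    push_cast at hTv'
    exact hTv'

end Pool.Agent.H.MP_0cad2f_co.qq
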