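import Pool.Agent.H.MP_0cad2f_co.qq.Bounds
import Pool.Agent.H.MP_0cad2f_co.qq.Chain
import Pool.Agent.H.MP_0cad2f_co.qp.Chain
import Pool.Agent.H.MP_0cad2f_co.qp.Face

/-!
The diameter of Gaussian-perturbed polytopes: the diameter of a regular polytope.
-/

set_option autoImplicit false

namespace Pool.Agent.H.MP_0cad2f_co.qq

open MeasureTheory ProbabilityTheory Matrix Finset
open scoped NNReal ENNReal
open Pool.Agent.H.MP_0cad2f_co.helper47 (Vert graph gau noise n2 Idx mat nu vtx Good Simple)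
open Pool.Agent.H.MP_0cad2f_co.helper29 (toVert)
open Pool.Agent.H.MP_0cad2f_co.qp (sl obj mul idx IsMin seg wt)

variable {n d : ℕ}

/-- Two sets with at least three quarters of all points meet. -/
private theorem ediam_meet {Ω : Type*} [Fintype Ω] [Nonempty Ω] (A A' : Set Ω)
    (hA : 3 * Fintype.card Ω ≤ 4 * A.ncard) (hA' : 3 * Fintype.card Ω ≤ 4 * A'.ncard) :
    ∃ ω, ω ∈ A ∧ ω ∈ A' := by
  by_contra hcon
  push Not at hcon
  have hdis : Disjoint A A' := Set.disjoint_left.2 hcon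
  have h1 := Set.ncard_union_eq hdis (Set.toFinite _) (Set.toFinite _)
  have h2 : (A ∪ A').ncard ≤ Fintype.card Ω := by
    rw [← Nat.card_eq_fintype_card, ← Set.ncard_univ]
    exact Set.ncard_le_ncard (Set.subset_univ _)
  have h3 : 0 < Fintype.card Ω := Fintype.card_pos
  omega

theorem ediam_reg {a : Fin n → Fin d → ℝ} {R e τ T : ℝ} {k : ℕ} {G : Finset (Fin n)}
    (hR : Reg a R e τ T k G) (he : 0 < e) (hR0 : 0 ≤ R) (hT : 0 ≤ T) {c : Fin n → ℝ} {ε : ℝ}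
    (hc : Scale c G ε) {μ : ℝ} (hμ : 0 < μ) (hμ1 : μ ≤ 1) (hn : d < n) (hd : 1 ≤ d) {r : ℕ}
    (hr : d + k < 2 ^ r) (hμT : T * G.card * μ * ((G.card + 1) * (2 * R)) ≤ τ) {Mm : ℝ}
    (heM : ε * e ≤ Mm) (hMm : ∀ B : Idx n d, Good a B → ct a c (vtx a B) ≤ Mm) {ν : ℝ}
    {J J₀ J₁ L : ℕ} (hν : 0 < ν)
    (h1 : 500000 * G.card * (J + 1) * ν * Real.log (2 * Mm / (ε * e)) ≤ μ ^ 2)
    (h3 : 1000000 * (n : ℝ) ^ d * (d : ℝ) ^ 2 * Mm ^ 2 ≤ 2 ^ J * (ε * e) ^ 2)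
    (h4 : 100 * 2 ^ J * (n : ℝ) ^ d * d ≤ L) (h5 : μ * 2 ^ J ≤ 72 * ν * L)
    (h6 : 2 * n * R ≤ e * 2 ^ J₀) (h7 : 1 ≤ 2 * ε * 2 ^ J₁) :
    (((graph a).ediam : ℕ∞) : ℝ≥0∞) ≤ ENNReal.ofReal (2 * ((J₀ + J₁ + 1) *
      (HR d r * (1 + J * (Real.log (18 * Mm / (ε * e)) / Real.log (1 + ν)))))) := by
  obtain ⟨Q, hQ⟩ : ∃ Q : ℝ, Q = (J₀ + J₁ + 1) *
      (HR d r * (1 + J * (Real.log (18 * Mm / (ε * e)) / Real.log (1 + ν)))) := ⟨_, rfl⟩
  have hs : Simple a := hR.simple he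
  have hL : 0 < L := by
    have hn0 : (0 : ℝ) < n := by
      have : 0 < n := by omega
      exact_mod_cast this
    have hd0 : (0 : ℝ) < d := by exact_mod_cast hd
    have : (0 : ℝ) < L := lt_of_lt_of_le (by positivity) h4
    exact_mod_cast this
  have hne : Nonempty (Fin n → Fin L) := ⟨fun _ => ⟨0, hL⟩⟩
  have hchain : ∀ {B : Idx n d} (hB : Good a B), 3 * Fintype.card (Fin n → Fin L) ≤
      4 * Set.ncard {ω : Fin n → Fin L |
      (∀ (B : Idx n d) (k : Fin d), mul a B (fun i => 4 * 2 ^ J₁ * (c i * wt L ω i)) k ≠ 0) ∧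
      ∃ (v : Idx n d) (hv : IsMin a (fun i => 4 * 2 ^ J₁ * (c i * wt L ω i)) v) (T : ℕ),
        (graph a).edist (toVert a ⟨B, hB⟩) (toVert a ⟨v, hv.1⟩) ≤ (T : ℕ∞) ∧ (T : ℝ) ≤ Q} := by
    intro B hB
    rw [Fintype.card_fun, Fintype.card_fin, Fintype.card_fin, hQ]
    exact chain hR he hR0 hT hc hμ hμ1 hn hd hr hμT heM hMm hν h1 h3 h4 h5 h6 h7 hB
  rw [← hQ]
  have hkey : (graph a).ediam ≤ ((2 * ⌊Q⌋₊ : ℕ) : ℕ∞) := by
    refine SimpleGraph.ediam_le_of_edist_le fun u u' => ?_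
    obtain ⟨⟨B, hB⟩, rfl⟩ := helper29.toVert_surjective a u
    obtain ⟨⟨B', hB'⟩, rfl⟩ := helper29.toVert_surjective a u'
    obtain ⟨ω, ⟨hnd, v, hv, T, hT, hTQ⟩, ⟨-, v', hv', T', hT', hTQ'⟩⟩ :=
      ediam_meet _ _ (hchain hB) (hchain hB')
    have hwt : ∀ i, 0 ≤ 4 * 2 ^ J₁ * (c i * wt L ω i) := by
      intro i
      have hci : 0 ≤ c i := hc.pos.le.trans (hc.lo i)
      have hwi : 0 ≤ wt L ω i := by
        unfold wt
        positivity
      positivity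
    have hvv : v' = v := qp.unique_min hR.det_ne hs hwt hnd hv.1 hv'.1 (Finset.empty_subset _)
      (Finset.empty_subset _) (fun C hC _ => hv.2 C hC) (hv'.2 v hv.1)
    subst hvv
    refine (SimpleGraph.edist_triangle (v := toVert a ⟨v', hv.1⟩)).trans ?_
    rw [two_mul, Nat.cast_add]
    refine add_le_add (hT.trans ?_) ?_
    · exact_mod_cast Nat.le_floor hTQ
    · rw [SimpleGraph.edist_comm]
      refine hT'.trans ?_
      exact_mod_cast Nat.le_floor hTQ'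
  by_cases hQ0 : 0 ≤ Q
  · calc (((graph a).ediam : ℕ∞) : ℝ≥0∞) ≤ (((2 * ⌊Q⌋₊ : ℕ) : ℕ∞) : ℝ≥0∞) :=
          ENat.toENNReal_le.2 hkey
      _ = ENNReal.ofReal ((2 * ⌊Q⌋₊ : ℕ) : ℝ) := by
          rw [ENNReal.ofReal_natCast]
          rfl
      _ ≤ ENNReal.ofReal (2 * Q) := by
          refine ENNReal.ofReal_le_ofReal ?_
          push_cast
          have := Nat.floor_le hQ0
          linarith
  · have h0 : ⌊Q⌋₊ = 0 := Nat.floor_of_nonpos (not_le.1 hQ0).le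
    rw [h0, mul_zero, Nat.cast_zero, nonpos_iff_eq_zero] at hkey
    rw [hkey]
    simp

end Pool.Agent.H.MP_0cad2f_co.qq
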