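import Pool.Agent.H.MP_0cad2f_co.qq.Defs
import Pool.Agent.H.MP_0cad2f_co.qp.Count

/-!
The diameter of Gaussian-perturbed polytopes, with a logarithmic dependence on the number of
constraints: the number of degenerate weights.
-/

set_option autoImplicit false

namespace Pool.Agent.H.MP_0cad2f_co.qq

open MeasureTheory ProbabilityTheory Matrix Finset
open scoped NNReal ENNReal
open Pool.Agent.H.MP_0cad2f_co.helper47 (Vert graph gau noise n2 Idx mat nu vtx Good Simple)
open Pool.Agent.H.MP_0cad2f_co.helper29 (toVert)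
open Pool.Agent.H.MP_0cad2f_co.qp (sl obj mul idx IsMin seg wt card_fibre line_count mul_update_same
  mul_update_ne)

variable {n d : ℕ}

/-- The weights after a change of one coordinate. -/
theorem swt_update (b c : Fin n → ℝ) (κ : ℝ) {L : ℕ} (ω : Fin n → Fin L) (j : Fin n) (x : Fin L) :
    (fun l => b l + κ * (c l * wt L (Function.update ω j x) l)) =
      Function.update (fun l => b l + κ * (c l * wt L ω l)) j
        (b j + κ * (c j * (1 + ((x : ℕ) : ℝ) / (2 * L)))) := by
  funext l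
  by_cases h : l = j
  · subst h
    simp [wt]
  · simp [wt, Function.update_of_ne h]

theorem mul_swt_same {a : Fin n → Fin d → ℝ} {B : Idx n d} (hB : (mat a B).det ≠ 0) (i : Fin d)
    (b c : Fin n → ℝ) (κ : ℝ) {L : ℕ} (ω : Fin n → Fin L) (x : Fin L) :
    mul a B (fun l => b l + κ * (c l * wt L (Function.update ω (B i) x) l)) i =
      (mul a B (fun l => b l + κ * (c l * wt L ω l)) i -
        κ * c (B i) * (((ω (B i) : ℕ) : ℝ) / (2 * L))) +
        κ * c (B i) * (((x : ℕ) : ℝ) / (2 * L)) := by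
  rw [swt_update, mul_update_same hB]
  simp only [wt]
  ring

theorem mul_swt_ne {a : Fin n → Fin d → ℝ} {B : Idx n d} (hB : (mat a B).det ≠ 0) {i j : Fin d}
    (hij : j ≠ i) (b c : Fin n → ℝ) (κ : ℝ) {L : ℕ} (ω : Fin n → Fin L) (x : Fin L) :
    mul a B (fun l => b l + κ * (c l * wt L (Function.update ω (B j) x) l)) i =
      mul a B (fun l => b l + κ * (c l * wt L ω l)) i := by
  rw [swt_update, mul_update_ne hB _ hij]

theorem two_count {a : Fin n → Fin d → ℝ} {B : Idx n d} (hB : (mat a B).det ≠ 0) {i j : Fin d}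
    (hij : i ≠ j) {c : Fin n → ℝ} {ε : ℝ} (hε : 0 < ε) (hc : ∀ l, ε ≤ c l) {lam κ η : ℝ}
    (hl : 0 < lam) (hκ : lam / 2 ≤ κ) (hη : 0 ≤ η) {L : ℕ} (hL : 0 < L) (b : Fin n → ℝ) :
    ((Set.ncard {ω : Fin n → Fin L | |mul a B (fun l => b l + κ * (c l * wt L ω l)) i| ≤ η ∧
        |mul a B (fun l => b l + κ * (c l * wt L ω l)) j| ≤ η} : ℕ) : ℝ) * (L : ℝ) ^ 2 ≤
      (8 * η * L / (lam * ε) + 1) ^ 2 * (L : ℝ) ^ n := by
  have hL' : (0 : ℝ) < L := by exact_mod_cast hL
  have hle : 0 < lam * ε := mul_pos hl hε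
  have hb : 0 ≤ 8 * η * L / (lam * ε) + 1 := by positivity
  have hκc : ∀ l, lam * ε / 2 ≤ κ * c l := by
    intro l
    calc lam * ε / 2 = lam / 2 * ε := by ring
      _ ≤ κ * c l := mul_le_mul hκ (hc l) hε.le (by linarith)
  have h1 := card_fibre (n := n) (L := L)
    (fun ω => |mul a B (fun l => b l + κ * (c l * wt L ω l)) i| ≤ η ∧
        |mul a B (fun l => b l + κ * (c l * wt L ω l)) j| ≤ η)
    (fun ω => |mul a B (fun l => b l + κ * (c l * wt L ω l)) j| ≤ η) (B i) hb
    (fun ω => by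
      refine le_trans ?_ (line_count hL (c := mul a B (fun l => b l + κ * (c l * wt L ω l)) i -
        κ * c (B i) * (((ω (B i) : ℕ) : ℝ) / (2 * L))) hle (hκc (B i)) hη)
      refine Nat.cast_le.2 (Set.ncard_le_ncard (fun x hx => ?_) (Set.toFinite _))
      have hx1 := hx.1
      rw [mul_swt_same hB] at hx1
      exact hx1)
    (fun ω x hx => by
      have hx1 := hx.2
      rw [mul_swt_ne hB hij] at hx1
      exact hx1)
  have h2 := card_fibre (n := n) (L := L)
    (fun ω => |mul a B (fun l => b l + κ * (c l * wt L ω l)) j| ≤ η) (fun _ => True) (B j) hb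
    (fun ω => by
      refine le_trans ?_ (line_count hL (c := mul a B (fun l => b l + κ * (c l * wt L ω l)) j -
        κ * c (B j) * (((ω (B j) : ℕ) : ℝ) / (2 * L))) hle (hκc (B j)) hη)
      refine Nat.cast_le.2 (Set.ncard_le_ncard (fun x hx => ?_) (Set.toFinite _))
      have hx1 : |_| ≤ η := hx
      rw [mul_swt_same hB] at hx1
      exact hx1)
    (fun _ _ _ => trivial)
  have h3 : ((Set.ncard {ω : Fin n → Fin L | True} : ℕ) : ℝ) = (L : ℝ) ^ n := by
    rw [show {ω : Fin n → Fin L | True} = Set.univ from rfl, Set.ncard_univ]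
    simp
  rw [h3] at h2
  calc _ = ((Set.ncard {ω : Fin n → Fin L |
          |mul a B (fun l => b l + κ * (c l * wt L ω l)) i| ≤ η ∧
        |mul a B (fun l => b l + κ * (c l * wt L ω l)) j| ≤ η} : ℕ) : ℝ) * L * L := by ring
    _ ≤ (8 * η * L / (lam * ε) + 1) *
        ((Set.ncard {ω : Fin n → Fin L |
          |mul a B (fun l => b l + κ * (c l * wt L ω l)) j| ≤ η} : ℕ) : ℝ) * L :=
      mul_le_mul_of_nonneg_right h1 hL'.le
    _ = (8 * η * L / (lam * ε) + 1) *
        (((Set.ncard {ω : Fin n → Fin L |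
          |mul a B (fun l => b l + κ * (c l * wt L ω l)) j| ≤ η} : ℕ) : ℝ) * L) := by ring
    _ ≤ (8 * η * L / (lam * ε) + 1) * ((8 * η * L / (lam * ε) + 1) * (L : ℝ) ^ n) :=
      mul_le_mul_of_nonneg_left h2 hb
    _ = (8 * η * L / (lam * ε) + 1) ^ 2 * (L : ℝ) ^ n := by ring

theorem nd_count {a : Fin n → Fin d → ℝ} {B : Idx n d} (hB : (mat a B).det ≠ 0) (i : Fin d)
    {c : Fin n → ℝ} (hc : ∀ l, 0 < c l) {κ : ℝ} (hκ : 0 < κ) {L : ℕ} (b : Fin n → ℝ) :
    ((Set.ncard {ω : Fin n → Fin L |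
        mul a B (fun l => b l + κ * (c l * wt L ω l)) i = 0} : ℕ) : ℝ) * L ≤
      (L : ℝ) ^ n := by
  have h2 := card_fibre (n := n) (L := L)
    (fun ω => mul a B (fun l => b l + κ * (c l * wt L ω l)) i = 0) (fun _ => True) (B i)
    (zero_le_one (α := ℝ))
    (fun ω => by
      have h1 : Set.ncard {x : Fin L |
          mul a B (fun l => b l + κ * (c l * wt L (Function.update ω (B i) x) l)) i = 0} ≤ 1 := by
        rw [Set.ncard_le_one (Set.toFinite _)]
        intro x hx y hy
        have hx' : mul a B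
          (fun l => b l + κ * (c l * wt L (Function.update ω (B i) x) l)) i = 0 := hx
        have hy' : mul a B
          (fun l => b l + κ * (c l * wt L (Function.update ω (B i) y) l)) i = 0 := hy
        rw [mul_swt_same hB] at hx' hy'
        have hL : (0 : ℝ) < L := by
          have : 0 < L := lt_of_le_of_lt (Nat.zero_le _) x.isLt
          exact_mod_cast this
        have h3 : κ * c (B i) * (((x : ℕ) : ℝ) / (2 * L)) =
          κ * c (B i) * (((y : ℕ) : ℝ) / (2 * L)) := by linarith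
        have h4 := mul_left_cancel₀ (mul_pos hκ (hc (B i))).ne' h3
        have h5 : ((x : ℕ) : ℝ) = ((y : ℕ) : ℝ) := by
          rwa [div_left_inj' (by positivity)] at h4
        exact Fin.ext (by exact_mod_cast h5)
      exact_mod_cast h1)
    (fun _ _ _ => trivial)
  have h3 : ((Set.ncard {ω : Fin n → Fin L | True} : ℕ) : ℝ) = (L : ℝ) ^ n := by
    rw [show {ω : Fin n → Fin L | True} = Set.univ from rfl, Set.ncard_univ]
    simp
  rw [h3, one_mul] at h2
  exact h2

end Pool.Agent.H.MP_0cad2f_co.qq
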