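import Pool.Agent.H.MP_0cad2f_co.qq.Defs
import Pool.Agent.H.MP_0cad2f_co.qp.IsoCount

/-!
The isolation lemma with scales, counting form: reduced to `qp.iso_line` for the scaled slacks
`c i * s x i` and the scaled base point `b i / c i`.
-/

set_option autoImplicit false

namespace Pool.Agent.H.MP_0cad2f_co.qq

open MeasureTheory ProbabilityTheory Matrix Finset
open scoped NNReal ENNReal
open Pool.Agent.H.MP_0cad2f_co.helper47 (Vert graph gau noise n2 Idx mat nu vtx Good Simple)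
open Pool.Agent.H.MP_0cad2f_co.qp (sl obj mul idx IsMin seg wt val IsArgmin)

variable {n d : ℕ}

/-- The isolation lemma with scales. -/
theorem iso_count {V : Type*} (s : V → Fin n → ℝ) (vm : (Fin n → ℝ) → V)
    (hvm : ∀ θ, IsArgmin s θ (vm θ)) (hs : ∀ x i, 0 ≤ s x i) {c : Fin n → ℝ}
    {G : Finset (Fin n)} {ε₀ : ℝ} (hc : Scale c G ε₀) {e Mm μ ε lam κ : ℝ} (he : 0 < e)
    (hMe : ∀ x, e ≤ ∑ i, c i * s x i) (hMm : ∀ x, ∑ i, c i * s x i ≤ Mm) (hμ : 0 < μ)
    (hμ1 : μ ≤ 1) (hε : 0 < ε) (hl : 0 < lam) (hκ : lam / 2 ≤ κ) {L : ℕ} (hL : μ ≤ 8 * ε * L)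
    (b : Fin n → ℝ) :
    ((Set.ncard {ω : Fin n → Fin L | ∃ x,
        val s (fun i => b i + κ * (c i * wt L ω i)) x ≤
          val s (fun i => b i + κ * (c i * wt L ω i)) (vm fun i => b i + κ * (c i * wt L ω i)) +
            ε * lam * ∑ i, c i * s (vm fun i => b i + κ * (c i * wt L ω i)) i ∧
        ∃ l ∈ G, μ * ∑ i, c i * s (vm fun i => b i + κ * (c i * wt L ω i)) i <
          |s x l - s (vm fun i => b i + κ * (c i * wt L ω i)) l|} : ℕ) : ℝ) * μ ^ 2 ≤
      256 * G.card * ε * Real.log (2 * Mm / e) * (L : ℝ) ^ n := by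
  classical
  have hc0 : ∀ i, 0 < c i := fun i => lt_of_lt_of_le hc.pos (hc.lo i)
  have hL0 : (0 : ℝ) < L := by
    by_contra h
    have : (L : ℝ) ≤ 0 := not_lt.1 h
    nlinarith
  obtain ⟨s', hs'⟩ : ∃ s' : V → Fin n → ℝ, ∀ x i, s' x i = c i * s x i :=
    ⟨fun x i => c i * s x i, fun _ _ => rfl⟩
  obtain ⟨b', hb'⟩ : ∃ b' : Fin n → ℝ, ∀ i, b' i = b i / c i := ⟨fun i => b i / c i, fun _ => rfl⟩
  obtain ⟨vm', hvm'⟩ : ∃ vm' : (Fin n → ℝ) → V, ∀ θ, vm' θ = vm fun i => c i * θ i :=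
    ⟨fun θ => vm fun i => c i * θ i, fun _ => rfl⟩
  have hval : ∀ θ x, val s' θ x = val s (fun i => c i * θ i) x := by
    intro θ x
    unfold qp.val
    refine Finset.sum_congr rfl fun i _ => ?_
    rw [hs']
    ring
  have hΘ : ∀ ω : Fin n → Fin L, (fun i => c i * (b' i + κ * wt L ω i)) =
      fun i => b i + κ * (c i * wt L ω i) := by
    intro ω
    funext i
    rw [hb']
    have := (hc0 i).ne'
    field_simp
  have harg : ∀ θ, IsArgmin s' θ (vm' θ) := by
    intro θ x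
    rw [hval, hval, hvm']
    exact hvm _ x
  have hs0 : ∀ x i, 0 ≤ s' x i := fun x i => by
    rw [hs']; exact mul_nonneg (hc0 i).le (hs x i)
  have hMe' : ∀ x, e ≤ ∑ i, s' x i := fun x => by simp only [hs']; exact hMe x
  have hMm' : ∀ x, ∑ i, s' x i ≤ Mm := fun x => by simp only [hs']; exact hMm x
  set p : Fin n → (Fin n → Fin L) → Prop := fun l ω => ∃ x,
        val s' (fun i => b' i + κ * wt L ω i) x ≤
          val s' (fun i => b' i + κ * wt L ω i) (vm' fun i => b' i + κ * wt L ω i) +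
            ε * lam * ∑ i, s' (vm' fun i => b' i + κ * wt L ω i) i ∧
        μ * ∑ i, s' (vm' fun i => b' i + κ * wt L ω i) i <
          |s' x l - s' (vm' fun i => b' i + κ * wt L ω i) l| with hp
  have h1 : ∀ l, ((Set.ncard {ω | p l ω} : ℕ) : ℝ) ≤
      256 * ε * Real.log (2 * Mm / e) / μ ^ 2 * (L : ℝ) ^ n := by
    intro l
    have h2 := qp.card_update (p l) l _ fun ω =>
      qp.iso_line s' vm' harg hs0 he hMe' hMm' hμ hμ1 hε hl hκ hL b' l ω
    have h3 : 256 * ε * Real.log (2 * Mm / e) * L / μ ^ 2 * (L : ℝ) ^ n =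
        256 * ε * Real.log (2 * Mm / e) / μ ^ 2 * (L : ℝ) ^ n * L := by ring
    rw [h3] at h2
    exact le_of_mul_le_mul_right h2 hL0
  have hsub : {ω : Fin n → Fin L | ∃ x,
        val s (fun i => b i + κ * (c i * wt L ω i)) x ≤
          val s (fun i => b i + κ * (c i * wt L ω i)) (vm fun i => b i + κ * (c i * wt L ω i)) +
            ε * lam * ∑ i, c i * s (vm fun i => b i + κ * (c i * wt L ω i)) i ∧
        ∃ l ∈ G, μ * ∑ i, c i * s (vm fun i => b i + κ * (c i * wt L ω i)) i <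
          |s x l - s (vm fun i => b i + κ * (c i * wt L ω i)) l|} ⊆
      ((G.biUnion fun l => Finset.univ.filter (p l) : Finset (Fin n → Fin L)) :
        Set (Fin n → Fin L)) := by
    rintro ω ⟨x, hx, l, hlG, hlt⟩
    simp only [Finset.coe_biUnion, Set.mem_iUnion, Finset.coe_filter]
    refine ⟨l, hlG, Finset.mem_univ ω, x, ?_, ?_⟩
    · rw [hval, hval, hvm', hΘ]
      simp only [hs']
      exact hx
    · rw [hvm', hΘ]
      simp only [hs']
      rw [hc.one l hlG, one_mul, one_mul]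
      exact hlt
  have h2 : Set.ncard {ω : Fin n → Fin L | ∃ x,
        val s (fun i => b i + κ * (c i * wt L ω i)) x ≤
          val s (fun i => b i + κ * (c i * wt L ω i)) (vm fun i => b i + κ * (c i * wt L ω i)) +
            ε * lam * ∑ i, c i * s (vm fun i => b i + κ * (c i * wt L ω i)) i ∧
        ∃ l ∈ G, μ * ∑ i, c i * s (vm fun i => b i + κ * (c i * wt L ω i)) i <
          |s x l - s (vm fun i => b i + κ * (c i * wt L ω i)) l|} ≤
      ∑ l ∈ G, (Finset.univ.filter (p l)).card := by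
    refine (Set.ncard_le_ncard hsub (Finset.finite_toSet _)).trans ?_
    rw [Set.ncard_coe_finset]
    exact Finset.card_biUnion_le
  have h3 := (Nat.cast_le (α := ℝ)).2 h2
  push_cast at h3
  have h4 : ∑ l ∈ G, ((Finset.univ.filter (p l)).card : ℝ) ≤
      ∑ _l ∈ G, 256 * ε * Real.log (2 * Mm / e) / μ ^ 2 * (L : ℝ) ^ n := by
    refine Finset.sum_le_sum fun l _ => ?_
    refine le_trans (le_of_eq ?_) (h1 l)
    rw [Set.ncard_eq_toFinset_card', Set.toFinset_ofPred]
  rw [Finset.sum_const, nsmul_eq_mul] at h4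
  have h5 := mul_le_mul_of_nonneg_right (h3.trans h4) (by positivity : 0 ≤ μ ^ 2)
  refine h5.trans (le_of_eq ?_)
  field_simp

end Pool.Agent.H.MP_0cad2f_co.qq
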