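import Pool.Agent.H.MP_0cad2f_co.qq.Defs

/-!
The choice of the parameters.
-/

set_option autoImplicit false

namespace Pool.Agent.H.MP_0cad2f_co.qq

/-- A bound for binomial coefficients. -/
private theorem choose_le (d r : ℕ) : (d + r).choose r ≤ (d + 1) ^ r := by
  induction r with
  | zero => simp
  | succ r ih =>
    have h1 := Nat.add_one_mul_choose_eq (d + r) r
    have h2 : d + r + 1 ≤ (d + 1) * (r + 1) := by nlinarith
    have h3 : (d + r + 1).choose (r + 1) * (r + 1) ≤ (d + 1) ^ (r + 1) * (r + 1) := by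
      rw [← h1, pow_succ]
      calc (d + r + 1) * (d + r).choose r ≤ (d + 1) * (r + 1) * (d + 1) ^ r :=
            Nat.mul_le_mul h2 ih
        _ = (d + 1) ^ r * (d + 1) * (r + 1) := by ring
    exact Nat.le_of_mul_le_mul_right h3 (Nat.succ_pos r)

private theorem half_le_log {ν : ℝ} (h0 : 0 < ν) (h1 : ν ≤ 1) : ν / 2 ≤ Real.log (1 + ν) := by
  have h2 := Real.one_sub_inv_le_log_of_pos (show (0 : ℝ) < 1 + ν by linarith)
  have h3 : ν / 2 ≤ 1 - (1 + ν)⁻¹ := by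
    rw [← one_div, le_sub_iff_add_le, ← le_sub_iff_add_le', div_le_iff₀ (by linarith)]
    nlinarith
  linarith

/-- The bound for one hop. -/
private theorem HR_le {d l k : ℕ} (hd : 1 ≤ d) (hl : 1 ≤ l) (hk : k = 2 * d * (l + 1) + 3) :
    d + k < 2 ^ (Nat.log 2 (d + k) + 1) ∧
    HR d (Nat.log 2 (d + k) + 1) ≤
      100 * (d * (l + 1)) ^ 2 * (d ^ 4 * d ^ Nat.log 2 (d * l)) := by
  set r : ℕ := Nat.log 2 (d + k) + 1 with hr
  have h1 : d + k < 2 ^ r := Nat.lt_pow_succ_log_self (by norm_num) _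
  have h2 : 2 ^ r ≤ 2 * (d + k) := by
    rw [hr, pow_succ, mul_comm]
    exact Nat.mul_le_mul_left 2 (Nat.pow_log_le_self 2 (by omega))
  have hdl : 1 ≤ d * l := Nat.mul_pos hd hl
  have hdl2 : d ≤ d * l := Nat.le_mul_of_pos_right d hl
  have h3 : 2 ^ r ≤ 10 * (d * (l + 1)) := by
    have h4 : d * (l + 1) = d * l + d := by ring
    have h5 : 2 * d * (l + 1) = 2 * (d * l) + 2 * d := by ring
    omega
  have h4 : r ≤ Nat.log 2 (d * l) + 4 := by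
    have h5 : d + k ≤ d * l * 2 ^ 3 := by
      have h6 : 2 * d * (l + 1) = 2 * (d * l) + 2 * d := by ring
      omega
    have h6 : Nat.log 2 (d + k) ≤ Nat.log 2 (d * l * 2 ^ 3) := Nat.log_mono_right h5
    have h7 : Nat.log 2 (d * l * 2 ^ 3) = Nat.log 2 (d * l) + 3 := by
      rw [show d * l * 2 ^ 3 = d * l * 2 * 2 * 2 by ring,
        Nat.log_mul_base (by norm_num) (by positivity),
        Nat.log_mul_base (by norm_num) (by positivity),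
        Nat.log_mul_base (by norm_num) (by positivity)]
    omega
  refine ⟨h1, ?_⟩
  unfold HR
  have h5 : (d + 1) ^ r ≤ 2 ^ r * d ^ r := by
    rw [← mul_pow]
    exact Nat.pow_le_pow_left (by omega) r
  have h6 : d ^ r ≤ d ^ 4 * d ^ Nat.log 2 (d * l) := by
    rw [← pow_add]
    exact Nat.pow_le_pow_right hd (by omega)
  calc 2 ^ r * (d + r).choose r ≤ 2 ^ r * (2 ^ r * d ^ r) :=
        Nat.mul_le_mul_left _ ((choose_le d r).trans h5)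
    _ ≤ (10 * (d * (l + 1))) * ((10 * (d * (l + 1))) * (d ^ 4 * d ^ Nat.log 2 (d * l))) := by
        gcongr
    _ = 100 * (d * (l + 1)) ^ 2 * (d ^ 4 * d ^ Nat.log 2 (d * l)) := by ring

theorem params : ∃ (C : ℝ) (K : ℕ), 0 ≤ C ∧ ∀ (n d : ℕ) (σ : ℝ), 2 ≤ n → 1 ≤ d → d < n → 0 < σ →
    σ ≤ 1 / (6 * Real.sqrt (d * Real.log n)) →
    ∀ (k g : ℕ) (e ε Mm : ℝ), k = 2 * d * (Nat.log 2 n + 1) + 3 → g ≤ k * d →
    e = σ / (24 * (n : ℝ) ^ (3 * d + 2)) → ε = 1 / (n : ℝ) ^ 2 →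
    Mm = n * (1 + 2 * (d / e)) →
    ∃ (μ ν : ℝ) (J J₀ J₁ L r : ℕ), 0 < μ ∧ μ ≤ 1 ∧ 0 < ν ∧ ε * e ≤ Mm ∧ d + k < 2 ^ r ∧
      400 * d / σ ^ 2 * g * μ * ((g + 1) * (2 * 2)) ≤ σ ^ 2 / 12 ∧
      500000 * g * (J + 1) * ν * Real.log (2 * Mm / (ε * e)) ≤ μ ^ 2 ∧
      1000000 * (n : ℝ) ^ d * (d : ℝ) ^ 2 * Mm ^ 2 ≤ 2 ^ J * (ε * e) ^ 2 ∧
      100 * 2 ^ J * (n : ℝ) ^ d * d ≤ L ∧ μ * 2 ^ J ≤ 72 * ν * L ∧
      2 * n * 2 ≤ e * 2 ^ J₀ ∧ 1 ≤ 2 * ε * 2 ^ J₁ ∧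
      2 * ((J₀ + J₁ + 1) *
          (HR d r * (1 + J * (Real.log (18 * Mm / (ε * e)) / Real.log (1 + ν))))) + 1 ≤
        C * ((d : ℝ) * Real.log n / σ) ^ K * (d : ℝ) ^ Nat.log 2 (d * Nat.log 2 n) := by
  refine ⟨2 * 10 ^ 28 * 4 ^ 31, 31, by positivity, ?_⟩
  intro n d σ hn hd hdn hσ hσ1 k g e ε Mm hk hg he hε hMm
  have hn' : (2 : ℝ) ≤ n := by exact_mod_cast hn
  have hd' : (1 : ℝ) ≤ d := by exact_mod_cast hd
  have hn0 : (0 : ℝ) < n := by linarith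
  have hd0 : (0 : ℝ) < d := by linarith
  -- `l` is the binary logarithm of `n`
  set l : ℕ := Nat.log 2 n with hl
  have hl1 : 1 ≤ l := Nat.log_pos (by norm_num) hn
  have hlogn : (1 : ℝ) / 2 ≤ Real.log n := by
    have h2 : Real.log 2 ≤ Real.log n := Real.log_le_log (by norm_num) hn'
    have h3 := Real.log_two_gt_d9
    linarith
  have hllog : 2 * (l : ℝ) ≤ 3 * Real.log n := by
    have h1 : ((2 : ℝ) ^ l) ≤ n := by exact_mod_cast Nat.pow_log_le_self 2 (by omega)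
    have h2 := Real.log_le_log (by positivity) h1
    rw [Real.log_pow] at h2
    have h3 : (2 : ℝ) / 3 ≤ Real.log 2 := by linarith [Real.log_two_gt_d9]
    have h4 : (l : ℝ) * (2 / 3) ≤ l * Real.log 2 :=
      mul_le_mul_of_nonneg_left h3 (Nat.cast_nonneg l)
    linarith
  have hdlog : (1 : ℝ) / 2 ≤ d * Real.log n :=
    hlogn.trans (le_mul_of_one_le_left (by linarith) hd')
  -- `σ ≤ 1 / 3`
  have hσ3 : σ ≤ 1 / 3 := by
    refine hσ1.trans ?_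
    have h4 : (1 : ℝ) / 2 ≤ Real.sqrt (d * Real.log n) := by
      apply Real.le_sqrt_of_sq_le
      refine le_trans (by norm_num) hdlog
    rw [div_le_div_iff₀ (by positivity) (by norm_num)]
    linarith
  set b : ℝ := (d : ℝ) * Real.log n / σ with hb
  have hσb : 1 / σ ≤ 2 * b := by
    rw [hb, ← mul_div_assoc]
    apply div_le_div_of_nonneg_right _ hσ.le
    linarith
  have hσ4 : 3 ≤ 1 / σ := by
    rw [le_div_iff₀ hσ]; linarith
  have hb1 : 1 ≤ b := by linarith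
  have hb0 : 0 < b := by linarith
  -- `D`
  set D : ℕ := d * (l + 1) with hD
  have hD2 : 2 ≤ D := by
    rw [hD]
    exact Nat.mul_le_mul hd (Nat.succ_le_succ hl1)
  have hdD : d ≤ D := Nat.le_mul_of_pos_right d (by omega)
  have hDb : (D : ℝ) ≤ b := by
    have h1 : (D : ℝ) ≤ 3 * (d * Real.log n) := by
      rw [hD]
      push_cast
      have h2 : (1 : ℝ) ≤ l := by exact_mod_cast hl1
      have h3 : (d : ℝ) * (l + 1) ≤ d * (3 * Real.log n) :=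
        mul_le_mul_of_nonneg_left (by linarith) hd0.le
      linarith
    refine h1.trans ?_
    rw [hb, le_div_iff₀ hσ]
    have h4 : 3 * ((d : ℝ) * Real.log n) * σ ≤ 3 * (d * Real.log n) * (1 / 3) :=
      mul_le_mul_of_nonneg_left hσ3 (by linarith)
    linarith
  -- `m`
  set m : ℕ := ⌈1 / σ⌉₊ with hm
  have hσm : 1 / σ ≤ m := Nat.le_ceil _
  have hm2 : (m : ℝ) ≤ 3 * b := by
    have := Nat.ceil_lt_add_one (show (0 : ℝ) ≤ 1 / σ by positivity)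
    linarith
  obtain ⟨Q, hQ⟩ : ∃ Q : ℕ, Q = D + m := ⟨_, rfl⟩
  have hQb : (Q : ℝ) ≤ 4 * b := by
    rw [hQ]; push_cast; linarith
  have hQ2 : 2 ≤ Q := by omega
  have hQ2' : (2 : ℝ) ≤ Q := by exact_mod_cast hQ2
  have hQ1' : (1 : ℝ) ≤ Q := by linarith
  have hQ0 : (0 : ℝ) < Q := by linarith
  have hDQ : (D : ℝ) ≤ Q := by rw [hQ]; push_cast; linarith [(Nat.cast_nonneg m : (0 : ℝ) ≤ m)]
  have hdQ : (d : ℝ) ≤ Q := le_trans (by exact_mod_cast hdD) hDQ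
  have hσQ : 1 / σ ≤ Q := by
    refine hσm.trans ?_
    rw [hQ]; push_cast; linarith [(Nat.cast_nonneg D : (0 : ℝ) ≤ D)]
  have hD1' : (1 : ℝ) ≤ D := by exact_mod_cast (by omega : 1 ≤ D)
  -- powers of two
  have hp1 : ∀ {i j : ℕ}, i ≤ j → (2 : ℝ) ^ i ≤ (2 : ℝ) ^ j :=
    fun h => pow_le_pow_right₀ (by norm_num) h
  have hnl : (n : ℝ) ≤ (2 : ℝ) ^ (l + 1) := by
    exact_mod_cast (Nat.lt_pow_succ_log_self (by norm_num) n).le
  have hlD : l + 1 ≤ D := Nat.le_mul_of_pos_left _ hd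
  have hnQ : (n : ℝ) ≤ (2 : ℝ) ^ Q := hnl.trans (hp1 (by omega))
  have hdnQ : (d : ℝ) ≤ (2 : ℝ) ^ Q := le_trans (by exact_mod_cast hdn.le) hnQ
  have hndQ : (n : ℝ) ^ d ≤ (2 : ℝ) ^ Q := by
    calc (n : ℝ) ^ d ≤ ((2 : ℝ) ^ (l + 1)) ^ d := pow_le_pow_left₀ hn0.le hnl d
      _ = (2 : ℝ) ^ D := by rw [← pow_mul, hD, mul_comm]
      _ ≤ (2 : ℝ) ^ Q := hp1 (by omega)
  have he0 : 0 < e := by rw [he]; positivity
  have hε0 : 0 < ε := by rw [hε]; positivity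
  have hE : 1 / e ≤ (2 : ℝ) ^ (10 * Q) := by
    have h1 : 1 / e = 24 * (n : ℝ) ^ (3 * d + 2) * (1 / σ) := by
      rw [he]; field_simp
    have h2 : (n : ℝ) ^ (3 * d + 2) ≤ (2 : ℝ) ^ (5 * D) := by
      calc (n : ℝ) ^ (3 * d + 2) ≤ ((2 : ℝ) ^ (l + 1)) ^ (3 * d + 2) :=
            pow_le_pow_left₀ hn0.le hnl _
        _ = (2 : ℝ) ^ ((l + 1) * (3 * d + 2)) := by rw [← pow_mul]
        _ ≤ (2 : ℝ) ^ (5 * D) := by
            apply hp1
            rw [hD]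
            have : (l + 1) * (3 * d + 2) ≤ (l + 1) * (5 * d) := Nat.mul_le_mul_left _ (by omega)
            calc (l + 1) * (3 * d + 2) ≤ (l + 1) * (5 * d) := this
              _ = 5 * (d * (l + 1)) := by ring
    have h3 : (m : ℝ) ≤ (2 : ℝ) ^ m := by exact_mod_cast Nat.lt_two_pow_self.le
    calc 1 / e = 24 * (n : ℝ) ^ (3 * d + 2) * (1 / σ) := h1
      _ ≤ 2 ^ 5 * 2 ^ (5 * D) * 2 ^ m := by
          gcongr
          · norm_num
          · exact hσm.trans h3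
      _ = (2 : ℝ) ^ (5 + 5 * D + m) := by rw [pow_add, pow_add]
      _ ≤ (2 : ℝ) ^ (10 * Q) := hp1 (by omega)
  have hE1 : 1 ≤ 1 / e := by
    rw [le_div_iff₀ he0, one_mul, he, div_le_one (by positivity)]
    have h1 : (1 : ℝ) ≤ (n : ℝ) ^ (3 * d + 2) := one_le_pow₀ (by linarith)
    linarith
  have hEps : 1 / ε ≤ (2 : ℝ) ^ (2 * Q) := by
    have h1 : 1 / ε = (n : ℝ) ^ 2 := by rw [hε]; simp
    rw [h1, mul_comm 2 Q, pow_mul]
    exact pow_le_pow_left₀ hn0.le hnQ 2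
  have hε1 : ε ≤ 1 := by
    rw [hε, div_le_one (by positivity)]
    exact one_le_pow₀ (by linarith)
  have hεe0 : 0 < ε * e := by positivity
  have hEE : 1 / (ε * e) ≤ (2 : ℝ) ^ (12 * Q) := by
    have h1 : 1 / (ε * e) = 1 / ε * (1 / e) := by field_simp
    rw [h1, show 12 * Q = 2 * Q + 10 * Q by ring, pow_add]
    gcongr
  have hMm1 : Mm ≤ (2 : ℝ) ^ (13 * Q) := by
    have h1 : (d : ℝ) / e = d * (1 / e) := by ring
    have h2 : 1 ≤ (d : ℝ) * (1 / e) := one_le_mul_of_one_le_of_one_le hd' hE1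
    calc Mm = n * (1 + 2 * (d * (1 / e))) := by rw [hMm, h1]
      _ ≤ n * (3 * (d * (1 / e))) := by gcongr; linarith
      _ ≤ 2 ^ Q * (2 ^ 2 * (2 ^ Q * 2 ^ (10 * Q))) := by
          gcongr
          norm_num
      _ = (2 : ℝ) ^ (Q + (2 + (Q + 10 * Q))) := by rw [pow_add, pow_add, pow_add]
      _ ≤ (2 : ℝ) ^ (13 * Q) := hp1 (by omega)
  have hMm0 : 1 ≤ Mm := by
    have h1 : 0 ≤ 2 * ((d : ℝ) / e) := by positivity
    rw [hMm]
    exact one_le_mul_of_one_le_of_one_le (by linarith) (by linarith)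
  have hMmp : 0 < Mm := by linarith
  have heMm : ε * e ≤ Mm := by
    have h1 : e ≤ 1 := by
      rw [le_div_iff₀ he0, one_mul] at hE1
      exact hE1
    have h2 : ε * e ≤ 1 := mul_le_one₀ hε1 he0.le h1
    linarith
  have hℓ : Real.log (18 * Mm / (ε * e)) ≤ 28 * Q := by
    have h1 : 18 * Mm / (ε * e) ≤ (2 : ℝ) ^ (28 * Q) := by
      calc 18 * Mm / (ε * e) = 18 * Mm * (1 / (ε * e)) := by ring
        _ ≤ 2 ^ 5 * 2 ^ (13 * Q) * 2 ^ (12 * Q) := by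
            gcongr
            norm_num
        _ = (2 : ℝ) ^ (5 + 13 * Q + 12 * Q) := by rw [pow_add, pow_add]
        _ ≤ (2 : ℝ) ^ (28 * Q) := hp1 (by omega)
    have h2 : Real.log (18 * Mm / (ε * e)) ≤ Real.log ((2 : ℝ) ^ (28 * Q)) :=
      Real.log_le_log (by positivity) h1
    rw [Real.log_pow] at h2
    have h3 : Real.log 2 ≤ 1 := by linarith [Real.log_two_lt_d9]
    refine h2.trans ?_
    push_cast
    exact mul_le_of_le_one_right (by positivity) h3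
  have hℓ0 : 0 ≤ Real.log (18 * Mm / (ε * e)) := by
    apply Real.log_nonneg
    rw [le_div_iff₀ hεe0]
    linarith
  have hℓ2 : Real.log (2 * Mm / (ε * e)) ≤ 28 * Q := by
    refine le_trans (Real.log_le_log (by positivity) ?_) hℓ
    gcongr
    norm_num
  have hℓ3 : 0 ≤ Real.log (2 * Mm / (ε * e)) := by
    apply Real.log_nonneg
    rw [le_div_iff₀ hεe0]
    linarith
  -- `g`
  have hg1 : g + 1 ≤ 5 * D ^ 2 := by
    have h1 : k ≤ 4 * D := by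
      have h2 : 2 * d * (l + 1) = 2 * D := by rw [hD]; ring
      omega
    have h2 : k * d ≤ 4 * D * D := Nat.mul_le_mul h1 hdD
    have h3 : 4 * D * D = 4 * D ^ 2 := by ring
    have h4 : 1 ≤ D ^ 2 := Nat.one_le_pow _ _ (by omega)
    omega
  have hg1' : (g : ℝ) + 1 ≤ 5 * (D : ℝ) ^ 2 := by exact_mod_cast hg1
  have hg0 : (0 : ℝ) ≤ g := by positivity
  have hgQ : (g : ℝ) + 1 ≤ 5 * (Q : ℝ) ^ 2 := hg1'.trans (by gcongr)
  -- `μ`
  set μ : ℝ := σ ^ 4 / (480000 * (D : ℝ) ^ 5) with hμ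
  have hμ0 : 0 < μ := by rw [hμ]; positivity
  have hμ1 : μ ≤ 1 := by
    rw [hμ, div_le_one (by positivity)]
    have h1 : (1 : ℝ) ≤ (D : ℝ) ^ 5 := one_le_pow₀ hD1'
    have h2 : σ ^ 4 ≤ 1 := pow_le_one₀ hσ.le (by linarith)
    linarith
  have hμ2 : 1 / μ ^ 2 ≤ 230400000000 * (Q : ℝ) ^ 18 := by
    have h1 : 1 / μ ^ 2 = 230400000000 * ((D : ℝ) ^ 10 * (1 / σ) ^ 8) := by
      rw [hμ]; field_simp; ring
    rw [h1]
    calc 230400000000 * ((D : ℝ) ^ 10 * (1 / σ) ^ 8)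
        ≤ 230400000000 * ((Q : ℝ) ^ 10 * (Q : ℝ) ^ 8) := by gcongr
      _ = 230400000000 * (Q : ℝ) ^ 18 := by ring
  have hμ3 : 400 * d / σ ^ 2 * g * μ * ((g + 1) * (2 * 2)) ≤ σ ^ 2 / 12 := by
    have h1 : 400 * d / σ ^ 2 * g * μ * ((g + 1) * (2 * 2)) ≤
        400 * D / σ ^ 2 * (5 * (D : ℝ) ^ 2) * μ * ((5 * (D : ℝ) ^ 2) * (2 * 2)) := by
      have h2 : (g : ℝ) ≤ 5 * (D : ℝ) ^ 2 := by linarith
      have h3 : (d : ℝ) ≤ D := by exact_mod_cast hdD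
      gcongr
    refine h1.trans (le_of_eq ?_)
    rw [hμ]
    field_simp
    ring
  -- the integers
  set J : ℕ := 63 * Q with hJ
  have hJ1 : (J : ℝ) + 1 ≤ 64 * Q := by
    rw [hJ]
    push_cast
    linarith
  have hJ2 : (J : ℝ) ≤ 63 * Q := by
    rw [hJ]
    push_cast
    exact le_rfl
  set ν : ℝ := μ ^ 2 / (500000 * (g + 1) * (J + 1) * (28 * Q)) with hν
  have hν0 : 0 < ν := by rw [hν]; positivity
  have hν1 : ν ≤ 1 := by
    rw [hν, div_le_one (by positivity)]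
    have h2 : (0 : ℝ) ≤ J := by positivity
    have h3 : μ ^ 2 ≤ 1 := pow_le_one₀ hμ0.le hμ1
    have h4 : (1 : ℝ) ≤ 500000 * (g + 1) :=
      one_le_mul_of_one_le_of_one_le (by norm_num) (by linarith)
    have h5 : (1 : ℝ) ≤ 500000 * (g + 1) * (J + 1) :=
      one_le_mul_of_one_le_of_one_le h4 (by linarith)
    exact h3.trans (one_le_mul_of_one_le_of_one_le h5 (by linarith))
  have hlog : ν / 2 ≤ Real.log (1 + ν) := half_le_log hν0 hν1
  have hlog0 : 0 < Real.log (1 + ν) := by linarith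
  have hinv : 1 / Real.log (1 + ν) ≤ 3 * 10 ^ 21 * (Q : ℝ) ^ 22 := by
    have h1 : 1 / Real.log (1 + ν) ≤ 1 / (ν / 2) := one_div_le_one_div_of_le (by linarith) hlog
    have h2 : 1 / (ν / 2) = 28000000 * ((g : ℝ) + 1) * ((J : ℝ) + 1) * Q * (1 / μ ^ 2) := by
      rw [hν]; field_simp; ring
    rw [h2] at h1
    refine h1.trans ?_
    calc 28000000 * ((g : ℝ) + 1) * ((J : ℝ) + 1) * Q * (1 / μ ^ 2)
        ≤ 28000000 * (5 * (Q : ℝ) ^ 2) * (64 * Q) * Q * (230400000000 * (Q : ℝ) ^ 18) := by gcongr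
      _ = 2064384000000000000000 * (Q : ℝ) ^ 22 := by ring
      _ ≤ 3 * 10 ^ 21 * (Q : ℝ) ^ 22 := by
          apply mul_le_mul_of_nonneg_right (by norm_num) (by positivity)
  obtain ⟨L, hL⟩ := exists_nat_ge (100 * 2 ^ J * (n : ℝ) ^ d * d + μ * 2 ^ J / (72 * ν))
  obtain ⟨hr, hHR⟩ := HR_le hd hl1 hk
  refine ⟨μ, ν, J, 12 * Q, 2 * Q, L, Nat.log 2 (d + k) + 1, hμ0, hμ1, hν0, heMm, hr, hμ3,
    ?_, ?_, ?_, ?_, ?_, ?_, ?_⟩
  · have h1 : 500000 * g * (J + 1) * ν * Real.log (2 * Mm / (ε * e)) ≤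
        500000 * (g + 1) * (J + 1) * ν * (28 * Q) := by
      have h2 : (g : ℝ) ≤ g + 1 := by linarith
      gcongr
    refine h1.trans (le_of_eq ?_)
    rw [hν]
    field_simp
  · have h2 : 1000000 * (n : ℝ) ^ d * (d : ℝ) ^ 2 * Mm ^ 2 * (1 / (ε * e)) ^ 2 ≤ (2 : ℝ) ^ J := by
      calc 1000000 * (n : ℝ) ^ d * (d : ℝ) ^ 2 * Mm ^ 2 * (1 / (ε * e)) ^ 2
          ≤ 2 ^ 20 * 2 ^ Q * (2 ^ Q) ^ 2 * (2 ^ (13 * Q)) ^ 2 * (2 ^ (12 * Q)) ^ 2 := by
            gcongr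
            norm_num
        _ = (2 : ℝ) ^ (20 + Q + Q * 2 + 13 * Q * 2 + 12 * Q * 2) := by
            rw [pow_add, pow_add, pow_add, pow_add, pow_mul _ Q 2, pow_mul _ (13 * Q) 2,
              pow_mul _ (12 * Q) 2]
        _ ≤ (2 : ℝ) ^ J := hp1 (by omega)
    have h3 : 1000000 * (n : ℝ) ^ d * (d : ℝ) ^ 2 * Mm ^ 2 =
        1000000 * (n : ℝ) ^ d * (d : ℝ) ^ 2 * Mm ^ 2 * (1 / (ε * e)) ^ 2 * (ε * e) ^ 2 := by
      field_simp
    rw [h3]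
    apply mul_le_mul_of_nonneg_right h2 (by positivity)
  · have h1 : 0 ≤ μ * 2 ^ J / (72 * ν) := by positivity
    linarith
  · have h1 : 0 ≤ 100 * 2 ^ J * (n : ℝ) ^ d * d := by positivity
    have h2 : μ * 2 ^ J / (72 * ν) ≤ L := by linarith
    rw [div_le_iff₀ (by positivity)] at h2
    linarith
  · have h2 : 2 * (n : ℝ) * 2 * (1 / e) ≤ (2 : ℝ) ^ (12 * Q) := by
      calc 2 * (n : ℝ) * 2 * (1 / e) = 4 * n * (1 / e) := by ring
        _ ≤ 2 ^ 2 * 2 ^ Q * 2 ^ (10 * Q) := by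
            gcongr
            norm_num
        _ = (2 : ℝ) ^ (2 + Q + 10 * Q) := by rw [pow_add, pow_add]
        _ ≤ (2 : ℝ) ^ (12 * Q) := hp1 (by omega)
    have h3 : 2 * (n : ℝ) * 2 = 2 * (n : ℝ) * 2 * (1 / e) * e := by
      field_simp
    rw [h3, mul_comm e]
    apply mul_le_mul_of_nonneg_right h2 he0.le
  · rw [div_le_iff₀ hε0, mul_comm] at hEps
    linarith
  · set Pd : ℝ := (d : ℝ) ^ Nat.log 2 (d * l) with hPd
    have hP1 : 1 ≤ Pd := one_le_pow₀ hd'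
    have hP0 : 0 < Pd := by linarith
    have hHR' : ((HR d (Nat.log 2 (d + k) + 1) : ℕ) : ℝ) ≤ 100 * (Q : ℝ) ^ 6 * Pd := by
      have h1 : ((HR d (Nat.log 2 (d + k) + 1) : ℕ) : ℝ) ≤
          100 * (D : ℝ) ^ 2 * ((d : ℝ) ^ 4 * Pd) := by
        rw [hPd]
        exact_mod_cast hHR
      refine h1.trans ?_
      calc 100 * (D : ℝ) ^ 2 * ((d : ℝ) ^ 4 * Pd) ≤ 100 * (Q : ℝ) ^ 2 * ((Q : ℝ) ^ 4 * Pd) := by
            gcongr
        _ = 100 * (Q : ℝ) ^ 6 * Pd := by ring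
    have h1 : (J : ℝ) * (Real.log (18 * Mm / (ε * e)) / Real.log (1 + ν)) ≤
        63 * Q * (28 * Q * (3 * 10 ^ 21 * (Q : ℝ) ^ 22)) := by
      rw [div_eq_mul_one_div (Real.log (18 * Mm / (ε * e)))]
      have h2 : 0 ≤ 1 / Real.log (1 + ν) := by positivity
      gcongr
    have h2 : 1 + (J : ℝ) * (Real.log (18 * Mm / (ε * e)) / Real.log (1 + ν)) ≤
        6 * 10 ^ 24 * (Q : ℝ) ^ 24 := by
      have h3 : (1 : ℝ) ≤ (Q : ℝ) ^ 24 := one_le_pow₀ hQ1'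
      have h4 : 63 * (Q : ℝ) * (28 * Q * (3 * 10 ^ 21 * (Q : ℝ) ^ 22)) =
          5292000000000000000000000 * (Q : ℝ) ^ 24 := by
        ring
      rw [h4] at h1
      linarith
    have h5 : 0 ≤ 1 + (J : ℝ) * (Real.log (18 * Mm / (ε * e)) / Real.log (1 + ν)) := by positivity
    have h50 : (((12 * Q : ℕ) : ℝ) + ((2 * Q : ℕ) : ℝ) + 1) ≤ 15 * Q := by
      push_cast; linarith
    have h6 : (((12 * Q : ℕ) : ℝ) + ((2 * Q : ℕ) : ℝ) + 1) *
        (HR d (Nat.log 2 (d + k) + 1) *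
          (1 + J * (Real.log (18 * Mm / (ε * e)) / Real.log (1 + ν)))) ≤
        15 * Q * (100 * (Q : ℝ) ^ 6 * Pd * (6 * 10 ^ 24 * (Q : ℝ) ^ 24)) := by gcongr
    have h7 : 15 * Q * (100 * (Q : ℝ) ^ 6 * Pd * (6 * 10 ^ 24 * (Q : ℝ) ^ 24)) =
        9000000000000000000000000000 * ((Q : ℝ) ^ 31 * Pd) := by ring
    have h8 : 1 ≤ (Q : ℝ) ^ 31 * Pd := one_le_mul_of_one_le_of_one_le (one_le_pow₀ hQ1') hP1
    rw [h7] at h6
    have h9 : (Q : ℝ) ^ 31 * Pd ≤ (4 * b) ^ 31 * Pd := by gcongr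
    have h10 : 2 * 10 ^ 28 * 4 ^ 31 * b ^ 31 * Pd = 2 * 10 ^ 28 * ((4 * b) ^ 31 * Pd) := by
      rw [mul_pow]; ring
    rw [h10]
    linarith

end Pool.Agent.H.MP_0cad2f_co.qq
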