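import Pool.Agent.H.MP_0cad2f_co.qq.Ediam
import Pool.Agent.H.MP_0cad2f_co.qq.ProbReg
import Pool.Agent.H.MP_0cad2f_co.qq.Params
import Pool.Agent.H.MP_0cad2f_co.qq.Bounds
import Pool.Agent.H.MP_0cad2f_co.qp.Crude
import Pool.Agent.H.MP_0cad2f_co.helper94.Block

set_option autoImplicit false

namespace Pool.Agent.H.MP_0cad2f_co.qq

open MeasureTheory ProbabilityTheory Matrix Finset
open scoped NNReal ENNReal
open Pool.Agent.H.MP_0cad2f_co.helper47 (Vert graph gau noise n2 Idx mat nu vtx Good Simple)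
open Pool.Agent.H.MP_0cad2f_co.helper29 (toVert)

variable {n d : ℕ}

theorem main : ∃ (C : ℝ) (K : ℕ), ∀ n d : ℕ, 2 ≤ n → 1 ≤ d → ∀ σ : ℝ, 0 < σ →
    σ ≤ 1 / (6 * Real.sqrt ((d : ℝ) * Real.log (n : ℝ))) →
    ∀ c : Fin n → Fin d → ℝ, (∀ i, ∑ j, (c i j) ^ 2 ≤ 1) →
      ∫⁻ a, (((graph a).ediam : ℕ∞) : ℝ≥0∞) ∂(noise c σ) ≤
        ENNReal.ofReal (C * ((d : ℝ) * Real.log n / σ) ^ K *
          (d : ℝ) ^ Nat.log 2 (d * Nat.log 2 n)) := by
  obtain ⟨C, K, hC, hP⟩ := params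
  refine ⟨C, K, ?_⟩
  intro n d hn hd σ hσ hσ1 c hc
  rcases Nat.lt_or_ge d n with hdn | hdn
  swap
  · have h0 : ∀ a : Fin n → Fin d → ℝ, (((graph a).ediam : ℕ∞) : ℝ≥0∞) = 0 := by
      intro a
      rw [qp.ediam_small a hdn]
      simp
    simp [h0]
  obtain ⟨k, hk⟩ : ∃ k : ℕ, k = 2 * d * (Nat.log 2 n + 1) + 3 := ⟨_, rfl⟩
  obtain ⟨G, hG⟩ : ∃ G : Finset (Fin n), G = GG n d k := ⟨_, rfl⟩
  have hGc : G.card ≤ k * d := by rw [hG]; exact card_GG n d k
  obtain ⟨μ, ν, J, J₀, J₁, L, r, hμ, hμ1, hν, heM, hr, hμT, h1, h3, h4, h5, h6, h7, hT⟩ :=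
    hP n d σ hn hd hdn hσ hσ1 k G.card _ _ _ hk hGc rfl rfl rfl
  have hn0 : (0 : ℝ) < n := by
    have : 0 < n := by omega
    exact_mod_cast this
  set e : ℝ := σ / (24 * (n : ℝ) ^ (3 * d + 2)) with he_def
  set ε : ℝ := 1 / (n : ℝ) ^ 2 with hε_def
  set Mm : ℝ := n * (1 + 2 * (d / e)) with hMm_def
  have he : 0 < e := by positivity
  have hε : 0 < ε := by positivity
  have hc' : ∀ i, n2 (c i) ≤ 1 := by
    intro i
    rw [n2, Real.sqrt_le_one]
    simpa [dotProduct, pow_two] using hc i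
  set T : ℝ := 2 * ((J₀ + J₁ + 1) *
    (HR d r * (1 + J * (Real.log (18 * Mm / (ε * e)) / Real.log (1 + ν))))) with hT_def
  set bad : Set (Fin n → Fin d → ℝ) :=
    {a | ¬ Reg a 2 e (σ ^ 2 / 12) (400 * d / σ ^ 2) k G} with hbad
  have hdet : ∀ᵐ a ∂(noise c σ), ∀ B : Idx n d, (mat a B).det ≠ 0 := by
    rw [ae_all_iff]
    intro B
    exact Pool.Agent.H.MP_0cad2f_co.helper94.ae_det_ne_zero c hσ B
  have hsc : Scale (sc G ε) G ε := scale_sc G hn
  have hle : ∀ᵐ a ∂(noise c σ), (((graph a).ediam : ℕ∞) : ℝ≥0∞) ≤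
      ENNReal.ofReal T + bad.indicator (fun _ => ((n ^ d : ℕ) : ℝ≥0∞)) a := by
    filter_upwards [hdet, Pool.Agent.H.MP_0cad2f_co.helper11.TD.ae_simple c hσ] with a ha hs
    by_cases hR : Reg a 2 e (σ ^ 2 / 12) (400 * d / σ ^ 2) k G
    · refine le_trans (ediam_reg hR he (by norm_num) (by positivity) hsc hμ hμ1 hdn hd hr hμT heM
        (fun B _ => ?_) hν h1 h3 h4 h5 ?_ h7) le_self_add
      · exact ct_le hR he (by norm_num) hsc B
      · linarith
    · rw [Set.indicator_of_mem (show a ∈ bad from hR)]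
      refine le_trans ?_ le_add_self
      exact_mod_cast qp.crude ha hs
  refine (lintegral_mono_ae hle).trans ?_
  rw [lintegral_add_left measurable_const, lintegral_const]
  have hprob : IsProbabilityMeasure (noise c σ) := inferInstance
  rw [measure_univ, mul_one]
  have h8 : ∫⁻ a, bad.indicator (fun _ => ((n ^ d : ℕ) : ℝ≥0∞)) a ∂(noise c σ) ≤ 1 := by
    refine (lintegral_indicator_const_le _ _).trans ?_
    have h9 := prob_reg c hσ hn hd hdn hσ1 hc' hk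
    rw [← hG] at h9
    calc ((n ^ d : ℕ) : ℝ≥0∞) * noise c σ bad
        ≤ ((n ^ d : ℕ) : ℝ≥0∞) * ENNReal.ofReal (1 / (n : ℝ) ^ d) := by
          gcongr
      _ = 1 := by
          rw [← ENNReal.ofReal_natCast, ← ENNReal.ofReal_mul (by positivity)]
          push_cast
          rw [mul_one_div_cancel (by positivity), ENNReal.ofReal_one]
  refine (add_le_add le_rfl h8).trans ?_
  have hT0 : 0 ≤ T := by
    rw [hT_def]
    have hee : 0 < ε * e := by positivity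
    have hMm : 0 < Mm := lt_of_lt_of_le hee heM
    have h9 : 0 ≤ Real.log (18 * Mm / (ε * e)) := by
      apply Real.log_nonneg
      rw [le_div_iff₀ hee]
      linarith
    have h10 : 0 ≤ Real.log (1 + ν) := Real.log_nonneg (by linarith)
    positivity
  rw [← ENNReal.ofReal_one, ← ENNReal.ofReal_add hT0 zero_le_one]
  exact ENNReal.ofReal_le_ofReal hT

end Pool.Agent.H.MP_0cad2f_co.qq
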