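import Pool.Agent.H.MP_0cad2f_co.qq.Near1
import Pool.Agent.H.MP_0cad2f_co.qp.Prob

/-!
The diameter of Gaussian-perturbed polytopes, with a logarithmic dependence on the number of
constraints: with high probability a vertex has few nearly tight other constraints.
-/

set_option autoImplicit false

namespace Pool.Agent.H.MP_0cad2f_co.qq

open MeasureTheory ProbabilityTheory Matrix Finset
open scoped NNReal ENNReal
open Pool.Agent.H.MP_0cad2f_co.helper47 (Vert graph gau noise n2 Idx mat nu vtx Good Simple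
  n2_nonneg abs_dot_le dot_vtx)
open Pool.Agent.H.MP_0cad2f_co.helper29 (toVert)
open Pool.Agent.H.MP_0cad2f_co.qp (sl obj mul idx IsMin seg wt)

variable {n d : ℕ}

/-- The weight of one constraint `y` at a point `v`: zero if it is violated, two if it is nearly
tight and its centre is not far, one otherwise. -/
noncomputable def gw (n : ℕ) (c : Fin d → ℝ) (σ : ℝ) (v y : Fin d → ℝ) : ℝ≥0∞ :=
  if 1 < y ⬝ᵥ v then 0 else
    if 1 - c ⬝ᵥ v ≤ 8 * Real.sqrt (d * Real.log n) * (σ * n2 v) ∧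
      1 - y ⬝ᵥ v ≤ σ ^ 2 / 12 * n2 v then 2 else 1

theorem meas_dot (f g : (Fin n → Fin d → ℝ) → Fin d → ℝ) (hf : Measurable f)
    (hg : Measurable g) : Measurable fun a => f a ⬝ᵥ g a := by
  simp only [dotProduct]
  exact Finset.measurable_sum _ fun j _ =>
    ((measurable_pi_apply j).comp hf).mul ((measurable_pi_apply j).comp hg)

theorem gw_meas (c : Fin d → ℝ) (σ : ℝ) (f g : (Fin n → Fin d → ℝ) → Fin d → ℝ)
    (hf : Measurable f) (hg : Measurable g) : Measurable fun a => gw n c σ (f a) (g a) := by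
  have h1 := meas_dot g f hg hf
  have h2 := meas_dot (fun _ => c) f measurable_const hf
  have h3 : Measurable fun a => n2 (f a) := helper94.measurable_n2.comp hf
  unfold gw
  refine Measurable.ite (measurableSet_lt measurable_const h1) measurable_const ?_
  refine Measurable.ite (MeasurableSet.inter ?_ ?_) measurable_const measurable_const
  · exact measurableSet_le (measurable_const.sub h2)
      (measurable_const.mul (measurable_const.mul h3))
  · exact measurableSet_le (measurable_const.sub h1) (measurable_const.mul h3)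

theorem meas_dot1 (v : Fin d → ℝ) : Measurable fun y : Fin d → ℝ => y ⬝ᵥ v := by
  simp only [dotProduct]
  exact Finset.measurable_sum _ fun j _ => (measurable_pi_apply j).mul measurable_const

theorem gw_meas1 (n : ℕ) (c : Fin d → ℝ) (σ : ℝ) (v : Fin d → ℝ) :
    Measurable fun y => gw n c σ v y := by
  have h1 := meas_dot1 v
  unfold gw
  refine Measurable.ite (measurableSet_lt measurable_const h1) measurable_const ?_
  refine Measurable.ite (MeasurableSet.inter ?_ ?_) measurable_const measurable_const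
  · exact MeasurableSet.const _
  · exact measurableSet_le (measurable_const.sub h1) measurable_const

/-- The mean of the weight of one constraint is at most one. -/
theorem gw_lint (c v : Fin d → ℝ) {σ : ℝ} (hσ : 0 < σ) (hn : 2 ≤ n) (hd : 1 ≤ d)
    (hσ1 : σ ≤ 1 / (6 * Real.sqrt (d * Real.log n))) (hv : v ≠ 0) :
    ∫⁻ y, gw n c σ v y ∂(gau c σ) ≤ 1 := by
  by_cases hfar : 1 - c ⬝ᵥ v ≤ 8 * Real.sqrt (d * Real.log n) * (σ * n2 v)
  · have hle := gau_near_le c v hσ hn hd hσ1 hv hfar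
    have hP : MeasurableSet {y : Fin d → ℝ | 1 < y ⬝ᵥ v} :=
      measurableSet_lt measurable_const (meas_dot1 v)
    have hQ : MeasurableSet {y : Fin d → ℝ | y ⬝ᵥ v ≤ 1 ∧ 1 - y ⬝ᵥ v ≤ σ ^ 2 / 12 * n2 v} :=
      (measurableSet_le (meas_dot1 v) measurable_const).inter
        (measurableSet_le (measurable_const.sub (meas_dot1 v)) measurable_const)
    have h1 : ∀ y, gw n c σ v y + Set.indicator {y : Fin d → ℝ | 1 < y ⬝ᵥ v} 1 y =
        1 + Set.indicator {y : Fin d → ℝ | y ⬝ᵥ v ≤ 1 ∧ 1 - y ⬝ᵥ v ≤ σ ^ 2 / 12 * n2 v} 1 y := by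
      intro y
      unfold gw
      by_cases h2 : 1 < y ⬝ᵥ v
      · rw [if_pos h2, Set.indicator_of_mem (show y ∈ {y : Fin d → ℝ | 1 < y ⬝ᵥ v} from h2),
          Set.indicator_of_notMem (fun h3 => absurd h3.1 (not_le.2 h2)), Pi.one_apply, zero_add,
          add_zero]
      · rw [if_neg h2, Set.indicator_of_notMem (show y ∉ {y : Fin d → ℝ | 1 < y ⬝ᵥ v} from h2)]
        by_cases h3 : 1 - y ⬝ᵥ v ≤ σ ^ 2 / 12 * n2 v
        · rw [if_pos ⟨hfar, h3⟩, Set.indicator_of_mem (show y ∈ {y : Fin d → ℝ | y ⬝ᵥ v ≤ 1 ∧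
            1 - y ⬝ᵥ v ≤ σ ^ 2 / 12 * n2 v} from ⟨not_lt.1 h2, h3⟩), Pi.one_apply, add_zero,
            one_add_one_eq_two]
        · rw [if_neg (fun h4 => h3 h4.2), Set.indicator_of_notMem (fun h4 => h3 h4.2)]
    have h2 : ∫⁻ y, gw n c σ v y ∂(gau c σ) + gau c σ {y | 1 < y ⬝ᵥ v} =
        1 + gau c σ {y | y ⬝ᵥ v ≤ 1 ∧ 1 - y ⬝ᵥ v ≤ σ ^ 2 / 12 * n2 v} := by
      rw [← lintegral_indicator_one hP, ← lintegral_add_left (gw_meas1 n c σ v)]
      rw [lintegral_congr h1, lintegral_add_left measurable_const, lintegral_indicator_one hQ,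
        lintegral_const, measure_univ, mul_one]
    have h3 : gau c σ {y | 1 < y ⬝ᵥ v} ≠ ⊤ := measure_ne_top _ _
    refine (ENNReal.add_le_add_iff_right h3).1 ?_
    rw [h2]
    exact add_le_add le_rfl hle
  · have h1 : ∀ y, gw n c σ v y ≤ 1 := by
      intro y
      unfold gw
      split_ifs with h2 h3
      · exact zero_le
      · exact absurd h3.1 hfar
      · exact le_rfl
    refine (lintegral_mono h1).trans ?_
    rw [lintegral_const, measure_univ, mul_one]

/-- The product of the weights of the constraints of `S`. -/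
noncomputable def FS (c : Fin n → Fin d → ℝ) (σ : ℝ) (B : Idx n d) (S : Finset (Fin n))
    (a : Fin n → Fin d → ℝ) : ℝ≥0∞ :=
  Set.indicator {a : Fin n → Fin d → ℝ | 1 / 2 ≤ n2 (vtx a B)} 1 a *
    ∏ i ∈ S, gw n (c i) σ (vtx a B) (a i)

theorem FS_meas (c : Fin n → Fin d → ℝ) (σ : ℝ) (B : Idx n d) (S : Finset (Fin n)) :
    Measurable (FS c σ B S) := by
  have hv := helper11.TD.measurable_vtx (n := n) (d := d) B
  unfold FS
  refine Measurable.mul ?_ ?_
  · exact measurable_one.indicator (measurableSet_le measurable_const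
      (helper94.measurable_n2.comp hv))
  · exact Finset.measurable_prod _ fun i _ => gw_meas (c i) σ _ _ hv (measurable_pi_apply i)

theorem vtx_upd (a : Fin n → Fin d → ℝ) {B : Idx n d} {i : Fin n} (hi : i ∉ Set.range B)
    (x : Fin d → ℝ) : vtx (Function.update a i x) B = vtx a B := by
  have hupd : ∀ k : Fin d, Function.update a i x (B k) = a (B k) := by
    intro k
    exact Function.update_of_ne (fun h => hi ⟨k, h⟩) _ _
  unfold vtx
  exact Finset.sum_congr rfl fun k _ => helper94.nu_congr hupd k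

theorem ne_zero_of_n2 {v : Fin d → ℝ} (hv : 1 / 2 ≤ n2 v) : v ≠ 0 := by
  intro h0
  rw [h0] at hv
  have : n2 (0 : Fin d → ℝ) = 0 := by simp [n2]
  rw [this] at hv
  norm_num at hv

theorem FS_lint (c : Fin n → Fin d → ℝ) {σ : ℝ} (hσ : 0 < σ) (hn : 2 ≤ n) (hd : 1 ≤ d)
    (hσ1 : σ ≤ 1 / (6 * Real.sqrt (d * Real.log n))) (B : Idx n d) (S : Finset (Fin n))
    (hS : ∀ j ∈ S, j ∉ Set.range B) : ∫⁻ a, FS c σ B S a ∂(noise c σ) ≤ 1 := by
  induction S using Finset.induction_on with
  | empty =>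
    have h1 : ∀ a, FS c σ B ∅ a ≤ 1 := by
      intro a
      unfold FS
      rw [Finset.prod_empty, mul_one]
      exact Set.indicator_le_self _ _ _
    refine (lintegral_mono h1).trans ?_
    rw [lintegral_const, measure_univ, mul_one]
  | insert i S hi ih =>
    refine le_trans ?_ (ih fun j hj => hS j (mem_insert_of_mem hj))
    rw [helper11.TD.noise_update c σ i (FS_meas c σ B (insert i S))]
    refine lintegral_mono fun a => ?_
    have hiB := hS i (mem_insert_self i S)
    have h1 : ∀ x : Fin d → ℝ, FS c σ B (insert i S) (Function.update a i x) =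
        FS c σ B S a * gw n (c i) σ (vtx a B) x := by
      intro x
      unfold FS
      rw [Finset.prod_insert hi, vtx_upd a hiB, Function.update_self]
      have h2 : ∏ j ∈ S, gw n (c j) σ (vtx a B) (Function.update a i x j) =
          ∏ j ∈ S, gw n (c j) σ (vtx a B) (a j) := by
        refine Finset.prod_congr rfl fun j hj => ?_
        have hji : j ≠ i := fun h => hi (h ▸ hj)
        rw [Function.update_of_ne hji]
      have h3 : Set.indicator {a : Fin n → Fin d → ℝ | 1 / 2 ≤ n2 (vtx a B)}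
          (1 : (Fin n → Fin d → ℝ) → ℝ≥0∞) (Function.update a i x) =
          Set.indicator {a : Fin n → Fin d → ℝ | 1 / 2 ≤ n2 (vtx a B)} 1 a := by
        simp only [Set.indicator, Set.mem_ofPred_eq, vtx_upd a hiB, Pi.one_apply]
      rw [h2, h3]
      ring
    rw [lintegral_congr h1, lintegral_const_mul _ (gw_meas1 n (c i) σ (vtx a B))]
    by_cases ha : 1 / 2 ≤ n2 (vtx a B)
    · have h2 := gw_lint (n := n) (c i) (vtx a B) hσ hn hd hσ1 (ne_zero_of_n2 ha)
      calc FS c σ B S a * ∫⁻ y, gw n (c i) σ (vtx a B) y ∂(gau (c i) σ)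
          ≤ FS c σ B S a * 1 := mul_le_mul' le_rfl h2
        _ = FS c σ B S a := mul_one _
    · have h2 : FS c σ B S a = 0 := by
        unfold FS
        rw [Set.indicator_of_notMem (show a ∉ {a : Fin n → Fin d → ℝ | 1 / 2 ≤ n2 (vtx a B)}
          from ha), zero_mul]
      rw [h2, zero_mul]

/-- The centre of the constraint `i` is far and the constraint is nearly tight. -/
def FarSet (c : Fin n → Fin d → ℝ) (σ : ℝ) (B : Idx n d) (i : Fin n) :
    Set (Fin n → Fin d → ℝ) :=
  {a | 1 / 2 ≤ n2 (vtx a B) ∧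
    8 * Real.sqrt (d * Real.log n) * (σ * n2 (vtx a B)) < 1 - c i ⬝ᵥ vtx a B ∧
    1 - a i ⬝ᵥ vtx a B ≤ σ ^ 2 / 12 * n2 (vtx a B)}

theorem far_prob (c : Fin n → Fin d → ℝ) {σ : ℝ} (hσ : 0 < σ) (hn : 2 ≤ n) (hd : 1 ≤ d)
    (hσ1 : σ ≤ 1 / (6 * Real.sqrt (d * Real.log n))) (B : Idx n d) {i : Fin n}
    (hi : i ∉ Set.range B) :
    noise c σ (FarSet c σ B i) ≤ ENNReal.ofReal (1 / (n : ℝ) ^ (20 * d)) := by
  have hv := helper11.TD.measurable_vtx (n := n) (d := d) B
  have hn2 : Measurable fun a : Fin n → Fin d → ℝ => n2 (vtx a B) :=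
    helper94.measurable_n2.comp hv
  have hm : MeasurableSet (FarSet c σ B i) := by
    refine MeasurableSet.inter ?_ (MeasurableSet.inter ?_ ?_)
    · exact measurableSet_le measurable_const hn2
    · exact measurableSet_lt (measurable_const.mul (measurable_const.mul hn2))
        (measurable_const.sub (meas_dot (fun _ => c i) _ measurable_const hv))
    · exact measurableSet_le
        (measurable_const.sub (meas_dot (fun a => a i) _ (measurable_pi_apply i) hv))
        (measurable_const.mul hn2)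
  rw [← lintegral_indicator_one hm, helper11.TD.noise_update c σ i (measurable_one.indicator hm)]
  have h0 : ∫⁻ _a : Fin n → Fin d → ℝ, ENNReal.ofReal (1 / (n : ℝ) ^ (20 * d)) ∂(noise c σ) =
      ENNReal.ofReal (1 / (n : ℝ) ^ (20 * d)) := by
    rw [lintegral_const, measure_univ, mul_one]
  rw [← h0]
  refine lintegral_mono fun a => ?_
  rw [show (fun x : Fin d → ℝ => Set.indicator (FarSet c σ B i)
      (1 : (Fin n → Fin d → ℝ) → ℝ≥0∞) (Function.update a i x)) =
      ((fun x => Function.update a i x) ⁻¹' (FarSet c σ B i)).indicator 1 from rfl,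
    lintegral_indicator_one (hm.preimage (measurable_update a))]
  by_cases ha : 1 / 2 ≤ n2 (vtx a B) ∧
    8 * Real.sqrt (d * Real.log n) * (σ * n2 (vtx a B)) < 1 - c i ⬝ᵥ vtx a B
  · refine (measure_mono fun x hx => ?_).trans
      (gau_far (c i) (vtx a B) hσ hn hd hσ1 (ne_zero_of_n2 ha.1) ha.2)
    have h1 := hx.2.2
    rw [vtx_upd a hi, Function.update_self] at h1
    exact h1
  · have h1 : (fun x => Function.update a i x) ⁻¹' (FarSet c σ B i) = ∅ := by
      rw [Set.eq_empty_iff_forall_notMem]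
      intro x hx
      apply ha
      have h2 := hx.1
      have h3 := hx.2.1
      rw [vtx_upd a hi] at h2 h3
      exact ⟨h2, h3⟩
    rw [h1, measure_empty]
    exact zero_le

theorem prob_near (c : Fin n → Fin d → ℝ) {σ : ℝ} (hσ : 0 < σ) (hn : 2 ≤ n) (hd : 1 ≤ d)
    (hσ1 : σ ≤ 1 / (6 * Real.sqrt (d * Real.log n))) (B : Idx n d) (k : ℕ) :
    noise c σ {a | (∀ i, n2 (a i) ≤ 2) ∧ Good a B ∧
        k < Set.ncard {i | i ∉ Set.range B ∧
          sl a (vtx a B) i ≤ σ ^ 2 / 12 * n2 (vtx a B)}} ≤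
      ENNReal.ofReal ((1 / 2) ^ (k + 1) + n * (1 / (n : ℝ) ^ (20 * d))) := by
  classical
  obtain ⟨S, hS⟩ : ∃ S : Finset (Fin n), ∀ i, i ∈ S ↔ i ∉ Set.range B :=
    ⟨Finset.univ.filter fun i => i ∉ Set.range B, fun i => by simp⟩
  have hsub : {a : Fin n → Fin d → ℝ | (∀ i, n2 (a i) ≤ 2) ∧ Good a B ∧
        k < Set.ncard {i | i ∉ Set.range B ∧
          sl a (vtx a B) i ≤ σ ^ 2 / 12 * n2 (vtx a B)}} ⊆
      {a | (2 : ℝ≥0∞) ^ (k + 1) ≤ FS c σ B S a} ∪ ⋃ i ∈ S, FarSet c σ B i := by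
    rintro a ⟨ha1, ha2, ha3⟩
    have hv : 1 / 2 ≤ n2 (vtx a B) := by
      have h1 := dot_vtx ha2.1 ⟨0, hd⟩
      have h2 := abs_dot_le (a (B ⟨0, hd⟩)) (vtx a B)
      rw [h1, abs_one] at h2
      have h3 := mul_le_mul_of_nonneg_right (ha1 (B ⟨0, hd⟩)) (n2_nonneg (vtx a B))
      linarith
    by_cases hfar : a ∈ ⋃ i ∈ S, FarSet c σ B i
    · exact Or.inr hfar
    refine Or.inl ?_
    rw [Set.mem_iUnion₂] at hfar
    push Not at hfar
    show (2 : ℝ≥0∞) ^ (k + 1) ≤ FS c σ B S a
    unfold FS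
    rw [Set.indicator_of_mem (show a ∈ {a : Fin n → Fin d → ℝ | 1 / 2 ≤ n2 (vtx a B)} from hv),
      Pi.one_apply, one_mul]
    obtain ⟨N, hN⟩ : ∃ N : Finset (Fin n), ∀ i, i ∈ N ↔ i ∈ {i | i ∉ Set.range B ∧
        sl a (vtx a B) i ≤ σ ^ 2 / 12 * n2 (vtx a B)} :=
      ⟨(Set.toFinite _).toFinset, fun i => Set.Finite.mem_toFinset _⟩
    have hNc : k + 1 ≤ N.card := by
      have h1 : Set.ncard {i | i ∉ Set.range B ∧
          sl a (vtx a B) i ≤ σ ^ 2 / 12 * n2 (vtx a B)} = N.card := by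
        rw [← Set.ncard_coe_finset]
        congr 1
        ext i
        exact (hN i).symm
      rw [h1] at ha3
      exact ha3
    have hNS : N ⊆ S := fun i hi => (hS i).2 ((hN i).1 hi).1
    have hg : ∀ i, ¬ 1 < a i ⬝ᵥ vtx a B := fun i => not_lt.2 (ha2.2 i)
    have h2 : ∀ i ∈ N, gw n (c i) σ (vtx a B) (a i) = 2 := by
      intro i hi
      have h3 := ((hN i).1 hi).2
      have h3' : 1 - a i ⬝ᵥ vtx a B ≤ σ ^ 2 / 12 * n2 (vtx a B) := h3
      unfold gw
      rw [if_neg (hg i), if_pos]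
      refine ⟨?_, h3'⟩
      by_contra h4
      exact hfar i (hNS hi) ⟨hv, not_le.1 h4, h3'⟩
    have h1 : ∀ i ∈ S, i ∉ N → 1 ≤ gw n (c i) σ (vtx a B) (a i) := by
      intro i _ _
      unfold gw
      rw [if_neg (hg i)]
      split_ifs
      · exact one_le_two
      · exact le_rfl
    calc (2 : ℝ≥0∞) ^ (k + 1) ≤ 2 ^ N.card := pow_le_pow_right₀ one_le_two hNc
      _ = ∏ i ∈ N, gw n (c i) σ (vtx a B) (a i) := by
          rw [Finset.prod_congr rfl h2, Finset.prod_const]
      _ ≤ ∏ i ∈ S, gw n (c i) σ (vtx a B) (a i) :=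
          Finset.prod_le_prod_of_subset_of_one_le' hNS h1
  have hE1 : noise c σ {a | (2 : ℝ≥0∞) ^ (k + 1) ≤ FS c σ B S a} ≤
      ENNReal.ofReal ((1 / 2) ^ (k + 1)) := by
    have h1 := meas_ge_le_lintegral_div (μ := noise c σ) (FS_meas c σ B S).aemeasurable
      (ε := (2 : ℝ≥0∞) ^ (k + 1)) (by simp) (by simp)
    refine h1.trans ?_
    have h2 := FS_lint c hσ hn hd hσ1 B S fun j hj => (hS j).1 hj
    refine (ENNReal.div_le_div_right h2 _).trans (le_of_eq ?_)
    rw [one_div, one_div, ENNReal.ofReal_pow (by norm_num), ENNReal.ofReal_inv_of_pos (by norm_num)]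
    rw [ENNReal.inv_pow]
    simp
  have hE2 : noise c σ (⋃ i ∈ S, FarSet c σ B i) ≤
      ENNReal.ofReal (n * (1 / (n : ℝ) ^ (20 * d))) := by
    refine (measure_biUnion_finset_le S _).trans ?_
    refine (Finset.sum_le_sum fun i hi => far_prob c hσ hn hd hσ1 B ((hS i).1 hi)).trans ?_
    rw [Finset.sum_const, nsmul_eq_mul, ENNReal.ofReal_mul (by positivity),
      ENNReal.ofReal_natCast]
    refine mul_le_mul' ?_ le_rfl
    have h1 : S.card ≤ n := by
      have := Finset.card_le_univ S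
      rwa [Fintype.card_fin] at this
    exact_mod_cast h1
  refine (measure_mono hsub).trans ((measure_union_le _ _).trans ?_)
  rw [ENNReal.ofReal_add (by positivity) (by positivity)]
  exact add_le_add hE1 hE2

end Pool.Agent.H.MP_0cad2f_co.qq
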