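import Pool.Agent.H.MP_0cad2f_co.qq.Defs
import Pool.Agent.H.MP_0cad2f_co.qp.Prob

/-!
One constraint: a close miss is at most as likely as a violation, and a constraint with a far centre
is almost never nearly tight.
-/

set_option autoImplicit false

namespace Pool.Agent.H.MP_0cad2f_co.qq

open MeasureTheory ProbabilityTheory Matrix Finset
open scoped NNReal ENNReal
open Pool.Agent.H.MP_0cad2f_co.helper47 (Vert graph gau noise n2 Idx mat nu vtx Good Simple n2_sq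
  n2_nonneg n2_smul n2_add_le n2_sub_le abs_dot_le dot_vtx)

variable {n d : ℕ}

private theorem near1_pos {x : Fin d → ℝ} (hx : x ≠ 0) : 0 < n2 x := by
  rcases (n2_nonneg x).lt_or_eq with h | h
  · exact h
  · exfalso
    apply hx
    have h2 := n2_sq x
    rw [← h] at h2
    have h3 : x ⬝ᵥ x = 0 := by rw [← h2]; norm_num
    exact dotProduct_self_eq_zero.mp h3

private theorem near1_iff {p q h : ℝ} (hp : 0 < p) : 1 / p - h ≤ q / p ↔ 1 - q ≤ h * p := by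
  rw [le_div_iff₀ hp]
  have h1 : (1 / p - h) * p = 1 - h * p := by field_simp
  rw [h1]
  constructor <;> intro h2 <;> linarith

/-- The law of `y ⬝ x / |x|`. -/
private theorem near1_law (c x : Fin d → ℝ) (σ : ℝ) (hx : x ≠ 0) {S : Set ℝ}
    (hS : MeasurableSet S) :
    gau c σ {y | y ⬝ᵥ x / n2 x ∈ S} =
      gaussianReal (c ⬝ᵥ x / n2 x) (Real.toNNReal (σ ^ 2)) S := by
  have hn := near1_pos hx
  set w : Fin d → ℝ := (n2 x)⁻¹ • x with hw
  have hw1 : n2 w = 1 := by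
    rw [hw, n2_smul, abs_of_pos (inv_pos.mpr hn), inv_mul_cancel₀ hn.ne']
  have hmeas : Measurable (fun x : Fin d → ℝ => ∑ j, x j * w j) := by fun_prop
  have h3 : ∀ y : Fin d → ℝ, ∑ j, y j * w j = (y ⬝ᵥ x) / n2 x := by
    intro y
    rw [dotProduct, Finset.sum_div]
    refine Finset.sum_congr rfl fun j _ => ?_
    rw [hw, Pi.smul_apply, smul_eq_mul]
    ring
  have h1 : {y : Fin d → ℝ | y ⬝ᵥ x / n2 x ∈ S} =
      (fun x : Fin d → ℝ => ∑ j, x j * w j) ⁻¹' S := by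
    ext y
    rw [Set.mem_ofPred_eq, Set.mem_preimage, h3]
  rw [h1, gau, ← Measure.map_apply hmeas hS, helper11.law]
  have h2 : helper11.nsq w = 1 := by
    have h3 : (helper11.nsq w : ℝ) = 1 := by
      rw [helper11.nsq_coe]
      have h4 := n2_sq w
      rw [hw1, dotProduct] at h4
      rw [← one_pow 2, h4]
      exact sum_congr rfl fun j _ => by ring
    exact_mod_cast h3
  rw [h2, mul_one, h3 c]

/-- A shifted interval has at least a fixed proportion of the probability. -/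
private theorem near1_shift (m B h a κ : ℝ) {σ : ℝ} (hσ : 0 < σ) (ha : 0 ≤ a)
    (hk : (2 * (B - m) * a + a ^ 2) / (2 * σ ^ 2) ≤ κ) :
    ENNReal.ofReal (Real.exp (-κ)) *
        gaussianReal m (Real.toNNReal (σ ^ 2)) (Set.Ioo (B - h) B) ≤
      gaussianReal m (Real.toNNReal (σ ^ 2)) (Set.Ioo (B - h + a) (B + a)) := by
  have hv : Real.toNNReal (σ ^ 2) ≠ 0 := by
    rw [Ne, Real.toNNReal_eq_zero, not_le]
    positivity
  have hvr : ((Real.toNNReal (σ ^ 2) : ℝ≥0) : ℝ) = σ ^ 2 := Real.coe_toNNReal _ (by positivity)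
  have h1 : Set.Ioo (B - h + a) (B + a) = (fun y => y - a) ⁻¹' Set.Ioo (B - h) B := by
    ext y
    rw [Set.mem_preimage, Set.mem_Ioo, Set.mem_Ioo]
    constructor
    · rintro ⟨h1, h2⟩
      exact ⟨by linarith, by linarith⟩
    · rintro ⟨h1, h2⟩
      exact ⟨by linarith, by linarith⟩
  rw [h1, ← Measure.map_apply (by fun_prop) measurableSet_Ioo, gaussianReal_map_sub_const,
    gaussianReal_apply _ hv, gaussianReal_apply _ hv,
    ← lintegral_const_mul _ (measurable_gaussianPDF _ _)]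
  refine setLIntegral_mono (measurable_gaussianPDF _ _) fun z hz => ?_
  unfold gaussianPDF
  rw [← ENNReal.ofReal_mul (Real.exp_pos _).le]
  apply ENNReal.ofReal_le_ofReal
  unfold gaussianPDFReal
  rw [mul_left_comm, hvr]
  refine mul_le_mul_of_nonneg_left ?_ (by positivity)
  rw [← Real.exp_add]
  apply Real.exp_le_exp.2
  have h2 : (z - m) * a ≤ (B - m) * a := mul_le_mul_of_nonneg_right (by linarith [hz.2]) ha
  have h3 : -(z - (m - a)) ^ 2 / (2 * σ ^ 2) =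
      -(z - m) ^ 2 / (2 * σ ^ 2) - (2 * (z - m) * a + a ^ 2) / (2 * σ ^ 2) := by
    ring
  rw [h3]
  have h4 : (2 * (z - m) * a + a ^ 2) / (2 * σ ^ 2) ≤ κ := by
    refine le_trans ?_ hk
    apply div_le_div_of_nonneg_right _ (by positivity)
    linarith
  linarith

/-- The one-dimensional form of the comparison. -/
private theorem near1_one (m B : ℝ) {σ : ℝ} (hσ : 0 < σ) (hσ1 : σ ≤ 1) (hB : B - m ≤ 4 / 3) :
    gaussianReal m (Real.toNNReal (σ ^ 2)) (Set.Icc (B - σ ^ 2 / 12) B) ≤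
      gaussianReal m (Real.toNNReal (σ ^ 2)) (Set.Ioi B) := by
  have hv : Real.toNNReal (σ ^ 2) ≠ 0 := by
    rw [Ne, Real.toNNReal_eq_zero, not_le]
    positivity
  have hns : NullSingletonClass (gaussianReal m (Real.toNNReal (σ ^ 2))) :=
    nullSingletonClass_gaussianReal hv
  rw [← measure_congr (Ioo_ae_eq_Icc (μ := gaussianReal m (Real.toNNReal (σ ^ 2)))
    (a := B - σ ^ 2 / 12) (b := B))]
  have hs2 : 0 < σ ^ 2 := by positivity
  have hs1 : σ ^ 2 ≤ 1 := by nlinarith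
  have h1 := near1_shift m B (σ ^ 2 / 12) (σ ^ 2 / 12) (1 / 8) hσ (by positivity) (by
    rw [div_le_iff₀ (by positivity)]
    nlinarith)
  have h2 := near1_shift m B (σ ^ 2 / 12) (2 * (σ ^ 2 / 12)) (1 / 4) hσ (by positivity) (by
    rw [div_le_iff₀ (by positivity)]
    nlinarith)
  have h3 : (1 : ℝ≥0∞) ≤ ENNReal.ofReal (Real.exp (-(1 / 8))) +
      ENNReal.ofReal (Real.exp (-(1 / 4))) := by
    rw [← ENNReal.ofReal_add (Real.exp_pos _).le (Real.exp_pos _).le, ← ENNReal.ofReal_one]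
    apply ENNReal.ofReal_le_ofReal
    have h4 := Real.add_one_le_exp (-(1 / 8 : ℝ))
    have h5 := Real.add_one_le_exp (-(1 / 4 : ℝ))
    linarith
  set G := gaussianReal m (Real.toNNReal (σ ^ 2)) with hG
  have hdis : Disjoint (Set.Ioo (B - σ ^ 2 / 12 + σ ^ 2 / 12) (B + σ ^ 2 / 12))
      (Set.Ioo (B - σ ^ 2 / 12 + 2 * (σ ^ 2 / 12)) (B + 2 * (σ ^ 2 / 12))) := by
    rw [Set.disjoint_left]
    rintro y ⟨_, hy1⟩ ⟨hy2, _⟩
    linarith
  calc G (Set.Ioo (B - σ ^ 2 / 12) B) = 1 * G (Set.Ioo (B - σ ^ 2 / 12) B) := (one_mul _).symm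
    _ ≤ (ENNReal.ofReal (Real.exp (-(1 / 8))) + ENNReal.ofReal (Real.exp (-(1 / 4)))) *
          G (Set.Ioo (B - σ ^ 2 / 12) B) := mul_le_mul_left h3 _
    _ = ENNReal.ofReal (Real.exp (-(1 / 8))) * G (Set.Ioo (B - σ ^ 2 / 12) B) +
          ENNReal.ofReal (Real.exp (-(1 / 4))) * G (Set.Ioo (B - σ ^ 2 / 12) B) := add_mul _ _ _
    _ ≤ G (Set.Ioo (B - σ ^ 2 / 12 + σ ^ 2 / 12) (B + σ ^ 2 / 12)) +
          G (Set.Ioo (B - σ ^ 2 / 12 + 2 * (σ ^ 2 / 12)) (B + 2 * (σ ^ 2 / 12))) :=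
        add_le_add h1 h2
    _ = G (Set.Ioo (B - σ ^ 2 / 12 + σ ^ 2 / 12) (B + σ ^ 2 / 12) ∪
          Set.Ioo (B - σ ^ 2 / 12 + 2 * (σ ^ 2 / 12)) (B + 2 * (σ ^ 2 / 12))) :=
        (measure_union hdis measurableSet_Ioo).symm
    _ ≤ G (Set.Ioi B) := by
        refine measure_mono ?_
        rintro y (⟨hy, _⟩ | ⟨hy, _⟩)
        · show B < y
          linarith
        · show B < y
          linarith

/-- The upper tail of a Gaussian. -/
private theorem near1_tail (m r : ℝ) {σ : ℝ} (hσ : 0 < σ) (hr : 0 ≤ r) :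
    gaussianReal m (Real.toNNReal (σ ^ 2)) (Set.Ici (m + r)) ≤
      ENNReal.ofReal (Real.exp (-(r ^ 2 / (2 * σ ^ 2)))) := by
  have hvr : ((Real.toNNReal (σ ^ 2) : ℝ≥0) : ℝ) = σ ^ 2 := Real.coe_toNNReal _ (by positivity)
  have h1 := measure_ge_le_exp_mul_mgf (μ := gaussianReal m (Real.toNNReal (σ ^ 2)))
    (X := fun x => x) (t := r / σ ^ 2) (m + r) (by positivity)
    (integrable_exp_mul_gaussianReal _)
  rw [mgf_fun_id_gaussianReal, hvr] at h1
  have h2 : Real.exp (-(r / σ ^ 2) * (m + r)) *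
      Real.exp (m * (r / σ ^ 2) + σ ^ 2 * (r / σ ^ 2) ^ 2 / 2) =
      Real.exp (-(r ^ 2 / (2 * σ ^ 2))) := by
    rw [← Real.exp_add]
    congr 1
    field_simp
    ring
  have h3 := h1.trans (le_of_eq h2)
  have h4 : (Set.Ici (m + r)) = {ω : ℝ | m + r ≤ ω} := rfl
  rw [h4, ← ofReal_measureReal]
  exact ENNReal.ofReal_le_ofReal h3

private theorem near1_s {d : ℕ} (hn : 2 ≤ n) (hd : 1 ≤ d) :
    (4 / 5 : ℝ) ≤ Real.sqrt (d * Real.log n) := by
  apply Real.le_sqrt_of_sq_le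
  have h1 : Real.log 2 ≤ Real.log n := Real.log_le_log (by norm_num) (by exact_mod_cast hn)
  have h2 := Real.log_two_gt_d9
  have h3 : (1 : ℝ) ≤ d := by exact_mod_cast hd
  nlinarith

/-- A close miss is at most as likely as a violation, for a constraint whose centre is not far. -/
theorem gau_near_le (c x : Fin d → ℝ) {σ : ℝ} (hσ : 0 < σ) (hn : 2 ≤ n) (hd : 1 ≤ d)
    (hσ1 : σ ≤ 1 / (6 * Real.sqrt (d * Real.log n))) (hx : x ≠ 0)
    (hfar : 1 - c ⬝ᵥ x ≤ 8 * Real.sqrt (d * Real.log n) * (σ * n2 x)) :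
    gau c σ {y | y ⬝ᵥ x ≤ 1 ∧ 1 - y ⬝ᵥ x ≤ σ ^ 2 / 12 * n2 x} ≤
      gau c σ {y | 1 < y ⬝ᵥ x} := by
  have hp := near1_pos hx
  have hs := near1_s hn hd
  set s := Real.sqrt (d * Real.log n)
  have hs0 : 0 < s := by linarith
  have h6 : σ * s ≤ 1 / 6 := by
    rw [le_div_iff₀ (by positivity)] at hσ1
    linarith
  have h1 : {y : Fin d → ℝ | y ⬝ᵥ x ≤ 1 ∧ 1 - y ⬝ᵥ x ≤ σ ^ 2 / 12 * n2 x} =
      {y | y ⬝ᵥ x / n2 x ∈ Set.Icc (1 / n2 x - σ ^ 2 / 12) (1 / n2 x)} := by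
    ext y
    rw [Set.mem_ofPred_eq, Set.mem_ofPred_eq, Set.mem_Icc, div_le_div_iff_of_pos_right hp,
      near1_iff hp]
    exact and_comm
  have h2 : {y : Fin d → ℝ | 1 < y ⬝ᵥ x} = {y | y ⬝ᵥ x / n2 x ∈ Set.Ioi (1 / n2 x)} := by
    ext y
    rw [Set.mem_ofPred_eq, Set.mem_ofPred_eq, Set.mem_Ioi, div_lt_div_iff_of_pos_right hp]
  rw [h1, h2, near1_law c x σ hx measurableSet_Icc, near1_law c x σ hx measurableSet_Ioi]
  refine near1_one _ _ hσ ?_ ?_
  · nlinarith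
  · rw [← sub_div, div_le_iff₀ hp]
    nlinarith

/-- A constraint with a far centre is almost never nearly tight. -/
theorem gau_far (c x : Fin d → ℝ) {σ : ℝ} (hσ : 0 < σ) (hn : 2 ≤ n) (hd : 1 ≤ d)
    (hσ1 : σ ≤ 1 / (6 * Real.sqrt (d * Real.log n))) (hx : x ≠ 0)
    (hfar : 8 * Real.sqrt (d * Real.log n) * (σ * n2 x) < 1 - c ⬝ᵥ x) :
    gau c σ {y | 1 - y ⬝ᵥ x ≤ σ ^ 2 / 12 * n2 x} ≤
      ENNReal.ofReal (1 / (n : ℝ) ^ (20 * d)) := by
  have hp := near1_pos hx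
  have hs := near1_s hn hd
  have hn0 : (0 : ℝ) < n := by exact_mod_cast (by omega : 0 < n)
  have hlog : 0 ≤ (d : ℝ) * Real.log n := by
    have : (1 : ℝ) ≤ n := by exact_mod_cast (by omega : 1 ≤ n)
    have := Real.log_nonneg this
    positivity
  have hsq : Real.sqrt (d * Real.log n) ^ 2 = d * Real.log n := Real.sq_sqrt hlog
  set s := Real.sqrt (d * Real.log n)
  have hs0 : 0 < s := by linarith
  have h6 : σ * s ≤ 1 / 6 := by
    rw [le_div_iff₀ (by positivity)] at hσ1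
    linarith
  have hσ2 : σ ≤ 1 := by nlinarith
  have h1 : {y : Fin d → ℝ | 1 - y ⬝ᵥ x ≤ σ ^ 2 / 12 * n2 x} =
      {y | y ⬝ᵥ x / n2 x ∈ Set.Ici (1 / n2 x - σ ^ 2 / 12)} := by
    ext y
    rw [Set.mem_ofPred_eq, Set.mem_ofPred_eq, Set.mem_Ici, near1_iff hp]
  rw [h1, near1_law c x σ hx measurableSet_Ici]
  have h7 : 7 * s * σ ≤ 1 / n2 x - σ ^ 2 / 12 - c ⬝ᵥ x / n2 x := by
    have h8 : 8 * s * σ < 1 / n2 x - c ⬝ᵥ x / n2 x := by
      rw [← sub_div, lt_div_iff₀ hp]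
      nlinarith
    have h9 : σ ^ 2 / 12 ≤ s * σ := by nlinarith
    linarith
  have h10 : Set.Ici (1 / n2 x - σ ^ 2 / 12) ⊆ Set.Ici (c ⬝ᵥ x / n2 x + 7 * s * σ) := by
    rw [Set.Ici_subset_Ici]
    linarith
  refine (measure_mono h10).trans ((near1_tail _ _ hσ (by positivity)).trans ?_)
  apply ENNReal.ofReal_le_ofReal
  have h11 : (7 * s * σ) ^ 2 / (2 * σ ^ 2) = 49 / 2 * s ^ 2 := by
    field_simp
    ring
  rw [h11, hsq]
  have h12 : 1 / (n : ℝ) ^ (20 * d) = Real.exp (-((20 * d : ℕ) * Real.log n)) := by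
    rw [Real.exp_neg, Real.exp_nat_mul, Real.exp_log hn0, one_div]
  rw [h12]
  apply Real.exp_le_exp.2
  push_cast
  nlinarith

end Pool.Agent.H.MP_0cad2f_co.qq
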